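import Pool.Agent.H28.DF.Defs

/-!
# MP_75f39d_co, DenseFamilies, row DFa: a union-closed family inside a sparse up-set

`claimL`: let `F` be a union-closed family of subsets of `V`, `H` an up-set of subsets of `V` with `F ⊆ H`, and `c` a real number such that
`c x + 2 (ei x) ≤ |V| x` for all `x ≤ |H|` (`ei` of `Pool.Agent.H51.UC.Ib`). Then `(c + 1) |F| - |H| ≤ sg F V`.
Proof. Count, for `x ∈ V`: `2 fr F x - |F| = #{T ∈ F : x ∈ T} - #{T ∈ F : x ∉ T}`; the members `T ∋ x` with `T - x ∈ F` correspond to the members `T ∌ x` with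
`T + x ∈ F` (`card_bij'` with `erase x`, `insert x`). So `sg F V = P - Q`, `P = #{(T, x) : T ∈ F, x ∈ V, x ∈ T, T - x ∉ F}`,
`Q = #{(T, x) : T ∈ F, x ∈ V, x ∉ T, T + x ∉ F}` (`= (bd V F).card`).
* `Q ≤ |H| - |F|`: `(T, x) ↦ T + x` maps into `H \ F` (`H` is an up-set) and is injective: if `T + x = T' + x'` and `T ≠ T'` then `T ∪ T' = T + x` would be a member
  (`T, T'` are two different subsets of `T + x` with one element less, so their union is `T + x`); if `T = T'` then `x = x'`. `card_le_card_of_injOn`, `card_sdiff`.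
* `c |F| ≤ P`: apply `iso_gen` of `Pool.Agent.H51.UC.Ib` to `X = F.image (V \ ·)`, `D = H.image (V \ ·)`: `D` is a down-set of subsets of `V` (`Down`) with `|D| = |H|`
  (`card_image_of_injOn`: `V \ (V \ Y) = Y` for `Y ⊆ V`), `X ⊆ D`, `|X| = |F|`, and `(bd V X).card = P` (bijection `(Y, j) ↦ (V \ Y, j)`: `j ∉ Y` iff `j ∈ V \ Y` for `j ∈ V`,
  `V \ (insert j Y) = (V \ Y).erase j`).
`claim2`, `claim1`: the constants `c = 2` if `3 |H| ≤ 2 ^ |V|` and `c = 1` if `3 |H| ≤ 2 * 2 ^ |V|` (integers). For `c = 1` use `ei_third V.card x`. For `c = 2`: if `|V| = 0` then `|H| = 0`, so `x = 0`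
(`ei_zero`); if `|V| = m + 1` use `ei_third m x` (`3 x ≤ 2 * 2 ^ m`): `2 ei x + x ≤ m x`, so `2 ei x + 2 x ≤ (m + 1) x`. Cast to `ℤ` at the end (`exact_mod_cast`).
-/

set_option autoImplicit false

namespace Pool.Agent.H28.DF

open Finset

variable {α : Type*} [DecidableEq α]

theorem DFa_inc (F : Finset (Finset α)) (V : Finset α) :
    (((F ×ˢ V).filter fun e => e.2 ∈ e.1).card : ℤ) = ∑ x ∈ V, (fr F x : ℤ) := by
  rw [card_filter, sum_product_right]
  push_cast
  refine sum_congr rfl fun x _ => ?_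
  rw [fr, card_filter]
  push_cast
  rfl

theorem DFa_bij (F : Finset (Finset α)) (V : Finset α) :
    ((F ×ˢ V).filter fun e => e.2 ∈ e.1 ∧ e.1.erase e.2 ∈ F).card =
      ((F ×ˢ V).filter fun e => e.2 ∉ e.1 ∧ insert e.2 e.1 ∈ F).card := by
  refine card_bij' (fun e _ => (e.1.erase e.2, e.2)) (fun e _ => (insert e.2 e.1, e.2)) ?_ ?_ ?_ ?_
  · intro e he
    rw [mem_filter, mem_product] at he ⊢
    refine ⟨⟨he.2.2, he.1.2⟩, notMem_erase _ _, ?_⟩
    show insert e.2 (e.1.erase e.2) ∈ F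
    rw [insert_erase he.2.1]
    exact he.1.1
  · intro e he
    rw [mem_filter, mem_product] at he ⊢
    refine ⟨⟨he.2.2, he.1.2⟩, mem_insert_self _ _, ?_⟩
    show (insert e.2 e.1).erase e.2 ∈ F
    rw [erase_insert he.2.1]
    exact he.1.1
  · intro e he
    rw [mem_filter] at he
    exact Prod.ext (insert_erase he.2.1) rfl
  · intro e he
    rw [mem_filter] at he
    exact Prod.ext (erase_insert he.2.1) rfl

theorem DFa_sg (F : Finset (Finset α)) (V : Finset α) :
    sg F V = (((F ×ˢ V).filter fun e => e.2 ∈ e.1 ∧ e.1.erase e.2 ∉ F).card : ℤ) -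
      ((Pool.Agent.H51.UC.bd V F).card : ℤ) := by
  have h1 := DFa_inc F V
  have h2 := card_filter_add_card_filter_not (s := F ×ˢ V) (fun e => e.2 ∈ e.1)
  have h3 := card_filter_add_card_filter_not
    (s := (F ×ˢ V).filter (fun e => e.2 ∈ e.1)) (fun e => e.1.erase e.2 ∈ F)
  have h4 := card_filter_add_card_filter_not
    (s := (F ×ˢ V).filter (fun e => ¬ e.2 ∈ e.1)) (fun e => insert e.2 e.1 ∈ F)
  rw [filter_filter, filter_filter] at h3 h4
  have h5 := DFa_bij F V
  have h6 : ((F ×ˢ V).filter (fun e => ¬ e.2 ∈ e.1 ∧ ¬ insert e.2 e.1 ∈ F)).card =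
    (Pool.Agent.H51.UC.bd V F).card := rfl
  rw [h6, ← h5] at h4
  rw [card_product] at h2
  have h7 : sg F V = 2 * ∑ x ∈ V, (fr F x : ℤ) - (F.card : ℤ) * (V.card : ℤ) := by
    rw [sg, sum_sub_distrib, ← mul_sum, sum_const, nsmul_eq_mul]
    ring
  rw [h7, ← h1]
  have h8 : ((F.card * V.card : ℕ) : ℤ) = (F.card : ℤ) * (V.card : ℤ) := by push_cast; rfl
  rw [← h8]
  omega

theorem DFa_Q {V : Finset α} {F H : Finset (Finset α)} (hHV : ∀ Y ∈ H, Y ⊆ V) (hup : ∀ Y ∈ H, ∀ Z ⊆ V, Y ⊆ Z → Z ∈ H)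
    (hFH : F ⊆ H) (hF : Pool.Agent.H78.UC.UnC F) :
    (Pool.Agent.H51.UC.bd V F).card + F.card ≤ H.card := by
  have h1 : (Pool.Agent.H51.UC.bd V F).card ≤ (H \ F).card := by
    refine card_le_card_of_injOn (fun e => insert e.2 e.1) ?_ ?_
    · intro e he
      have he' := Pool.Agent.H51.UC.mem_bd.1 (mem_coe.1 he)
      refine mem_coe.2 (mem_sdiff.2 ⟨?_, he'.2.2⟩)
      refine hup e.1 (hFH he'.1.1) _ ?_ (subset_insert _ _)
      exact insert_subset he'.1.2 (hHV _ (hFH he'.1.1))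
    · intro e he e' he' hee
      have h2 := Pool.Agent.H51.UC.mem_bd.1 (mem_coe.1 he)
      have h3 := Pool.Agent.H51.UC.mem_bd.1 (mem_coe.1 he')
      replace hee : insert e.2 e.1 = insert e'.2 e'.1 := hee
      by_cases h4 : e.2 = e'.2
      · refine Prod.ext ?_ h4
        rw [← erase_insert h2.2.1, hee, h4, erase_insert h3.2.1]
      · exfalso
        apply h2.2.2
        have h5 : e.1 ∪ e'.1 = insert e.2 e.1 := by
          apply Subset.antisymm
          · refine union_subset (subset_insert _ _) ?_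
            rw [hee]
            exact subset_insert _ _
          · refine insert_subset ?_ subset_union_left
            have h6 : e.2 ∈ insert e'.2 e'.1 := by
              rw [← hee]
              exact mem_insert_self _ _
            rcases mem_insert.1 h6 with h7 | h7
            · exact absurd h7 h4
            · exact mem_union_right _ h7
        rw [← h5]
        exact hF _ h2.1.1 _ h3.1.1
  rw [card_sdiff_of_subset hFH] at h1
  have h2 := card_le_card hFH
  omega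

theorem DFa_P {V : Finset α} {F H : Finset (Finset α)} (hHV : ∀ Y ∈ H, Y ⊆ V) (hup : ∀ Y ∈ H, ∀ Z ⊆ V, Y ⊆ Z → Z ∈ H)
    (hFH : F ⊆ H) {c : ℝ} (hc : ∀ x : ℕ, x ≤ H.card → c * x + 2 * (Pool.Agent.H51.UC.ei x : ℝ) ≤ V.card * x) :
    c * (F.card : ℝ) ≤ (((F ×ˢ V).filter fun e => e.2 ∈ e.1 ∧ e.1.erase e.2 ∉ F).card : ℝ) := by
  have hinv : ∀ Y ∈ H, V \ (V \ Y) = Y := fun Y hY => by
    rw [sdiff_sdiff_right_self]
    exact inf_eq_right.2 (hHV Y hY)
  have hinj : Set.InjOn (fun Y => V \ Y) (H : Set (Finset α)) := by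
    intro Y hY Z hZ h
    replace h : V \ Y = V \ Z := h
    rw [← hinv Y (mem_coe.1 hY), h, hinv Z (mem_coe.1 hZ)]
  have hD1 : (H.image fun Y => V \ Y).card = H.card := card_image_of_injOn hinj
  have hX1 : (F.image fun Y => V \ Y).card = F.card :=
    card_image_of_injOn (hinj.mono (coe_subset.2 hFH))
  have hDV : (H.image fun Y => V \ Y) ⊆ V.powerset := by
    intro Y hY
    obtain ⟨Z, _, rfl⟩ := mem_image.1 hY
    exact mem_powerset.2 sdiff_subset
  have hDD : Pool.Agent.H51.UC.Down (H.image fun Y => V \ Y) := by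
    intro Y hY Z hZ
    obtain ⟨W, hW, rfl⟩ := mem_image.1 hY
    have hZV : Z ⊆ V := hZ.trans sdiff_subset
    refine mem_image.2 ⟨V \ Z, ?_, ?_⟩
    · refine hup W hW _ sdiff_subset ?_
      intro a ha
      refine mem_sdiff.2 ⟨hHV W hW ha, fun h => ?_⟩
      exact (mem_sdiff.1 (hZ h)).2 ha
    · show V \ (V \ Z) = Z
      rw [sdiff_sdiff_right_self]
      exact inf_eq_right.2 hZV
  have hmem : ∀ Y ⊆ V, (Y ∈ (F.image fun Y => V \ Y) ↔ V \ Y ∈ F) := by
    intro Y hY
    have e1 : V \ (V \ Y) = Y := by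
      rw [sdiff_sdiff_right_self]
      exact inf_eq_right.2 hY
    constructor
    · intro h
      obtain ⟨Z, hZ, h2⟩ := mem_image.1 h
      rw [← h2, hinv Z (hFH hZ)]
      exact hZ
    · intro h
      exact mem_image.2 ⟨V \ Y, h, e1⟩
  have h1 := Pool.Agent.H51.UC.iso_gen hDV hDD (c := c) (fun x hx => hc x (by rw [← hD1]; exact hx))
    (X := F.image fun Y => V \ Y) (image_subset_image hFH)
  rw [hX1] at h1
  have h2 : (Pool.Agent.H51.UC.bd V (F.image fun Y => V \ Y)).card =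
      ((F ×ˢ V).filter fun e => e.2 ∈ e.1 ∧ e.1.erase e.2 ∉ F).card := by
    refine card_bij' (fun e _ => (V \ e.1, e.2)) (fun e _ => (V \ e.1, e.2)) ?_ ?_ ?_ ?_
    · intro e he
      have he' := Pool.Agent.H51.UC.mem_bd.1 he
      have hsub : e.1 ⊆ V := mem_powerset.1 (hDV (image_subset_image hFH he'.1.1))
      have h3 := (hmem e.1 hsub).1 he'.1.1
      have h4 : insert e.2 e.1 ⊆ V := insert_subset he'.1.2 hsub
      rw [mem_filter, mem_product]
      refine ⟨⟨h3, he'.1.2⟩, mem_sdiff.2 ⟨he'.1.2, he'.2.1⟩, fun h5 => he'.2.2 ?_⟩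
      rw [hmem _ h4]
      have h6 : V \ insert e.2 e.1 = (V \ e.1).erase e.2 := by
        ext a
        simp only [mem_sdiff, mem_insert, mem_erase, not_or]
        tauto
      rw [h6]
      exact h5
    · intro e he
      rw [mem_filter, mem_product] at he
      have hsub : e.1 ⊆ V := hHV _ (hFH he.1.1)
      rw [Pool.Agent.H51.UC.mem_bd]
      have e1 : V \ (V \ e.1) = e.1 := hinv _ (hFH he.1.1)
      have h4 : insert e.2 (V \ e.1) ⊆ V := insert_subset he.1.2 sdiff_subset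
      refine ⟨⟨?_, he.1.2⟩, fun h5 => (mem_sdiff.1 h5).2 he.2.1, fun h5 => he.2.2 ?_⟩
      · show V \ e.1 ∈ F.image fun Y => V \ Y
        exact mem_image.2 ⟨e.1, he.1.1, rfl⟩
      · have h6 := (hmem _ h4).1 h5
        have h7 : V \ insert e.2 (V \ e.1) = e.1.erase e.2 := by
          ext a
          simp only [mem_sdiff, mem_insert, mem_erase, not_or, not_and, not_not]
          constructor
          · rintro ⟨h8, h9, h10⟩
            exact ⟨h9, h10 h8⟩
          · rintro ⟨h8, h9⟩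
            exact ⟨hsub h9, h8, fun _ => h9⟩
        rw [← h7]
        exact h6
    · intro e he
      have he' := Pool.Agent.H51.UC.mem_bd.1 he
      have hsub : e.1 ⊆ V := mem_powerset.1 (hDV (image_subset_image hFH he'.1.1))
      refine Prod.ext ?_ rfl
      show V \ (V \ e.1) = e.1
      rw [sdiff_sdiff_right_self]
      exact inf_eq_right.2 hsub
    · intro e he
      rw [mem_filter, mem_product] at he
      refine Prod.ext ?_ rfl
      exact hinv _ (hFH he.1.1)
  rw [h2] at h1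
  exact h1

theorem claimL {V : Finset α} {F H : Finset (Finset α)} (hHV : ∀ Y ∈ H, Y ⊆ V) (hup : ∀ Y ∈ H, ∀ Z ⊆ V, Y ⊆ Z → Z ∈ H) (hFH : F ⊆ H)
    (hF : Pool.Agent.H78.UC.UnC F) {c : ℝ} (hc : ∀ x : ℕ, x ≤ H.card → c * x + 2 * (Pool.Agent.H51.UC.ei x : ℝ) ≤ V.card * x) :
    (c + 1) * (F.card : ℝ) - (H.card : ℝ) ≤ ((sg F V : ℤ) : ℝ) := by
  have h1 := DFa_sg F V
  have h2 := DFa_Q hHV hup hFH hF
  have h3 := DFa_P hHV hup hFH hc
  have h4 : ((Pool.Agent.H51.UC.bd V F).card : ℝ) + (F.card : ℝ) ≤ (H.card : ℝ) := by exact_mod_cast h2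
  rw [h1]
  push_cast
  linarith

theorem claim2 {V : Finset α} {F H : Finset (Finset α)} (hHV : ∀ Y ∈ H, Y ⊆ V) (hup : ∀ Y ∈ H, ∀ Z ⊆ V, Y ⊆ Z → Z ∈ H) (hFH : F ⊆ H)
    (hF : Pool.Agent.H78.UC.UnC F) (h : 3 * H.card ≤ 2 ^ V.card) : 3 * (F.card : ℤ) - (H.card : ℤ) ≤ sg F V := by
  have h1 := claimL hHV hup hFH hF (c := 2) (fun x hx => by
    rcases hv : V.card with _ | m
    · rw [hv, pow_zero] at h
      have h2 : x = 0 := by omega
      rw [h2, Pool.Agent.H51.UC.ei_zero]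
      simp
    · rw [hv, pow_succ] at h
      have h2 := Pool.Agent.H51.UC.ei_third m x (by omega)
      have h3 : (2 * Pool.Agent.H51.UC.ei x : ℝ) + x ≤ m * x := by exact_mod_cast h2
      push_cast
      linarith)
  have h2 : ((3 * (F.card : ℤ) - (H.card : ℤ) : ℤ) : ℝ) ≤ ((sg F V : ℤ) : ℝ) := by
    push_cast
    linarith
  exact_mod_cast h2

theorem claim1 {V : Finset α} {F H : Finset (Finset α)} (hHV : ∀ Y ∈ H, Y ⊆ V) (hup : ∀ Y ∈ H, ∀ Z ⊆ V, Y ⊆ Z → Z ∈ H) (hFH : F ⊆ H)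
    (hF : Pool.Agent.H78.UC.UnC F) (h : 3 * H.card ≤ 2 * 2 ^ V.card) : 2 * (F.card : ℤ) - (H.card : ℤ) ≤ sg F V := by
  have h1 := claimL hHV hup hFH hF (c := 1) (fun x hx => by
    have h2 := Pool.Agent.H51.UC.ei_third V.card x (by omega)
    have h3 : (2 * Pool.Agent.H51.UC.ei x : ℝ) + x ≤ V.card * x := by exact_mod_cast h2
    linarith)
  have h2 : ((2 * (F.card : ℤ) - (H.card : ℤ) : ℤ) : ℝ) ≤ ((sg F V : ℤ) : ℝ) := by
    push_cast
    linarith
  exact_mod_cast h2

end Pool.Agent.H28.DF
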