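import Pool.Agent.H28.DF.Ca

/-!
# MP_75f39d_co, DenseFamilies, row DFb: one step of the peeling

`F ⊆ A`, `k ∈ V`, `F_V = ins F V`, `F_0 = ins F (V.erase k)`, `F' = lk (ins F V) k` (the `T - k`, `k ∈ T ∈ F`, `T ⊆ V`).
* `card_ins`: `|F_V| = |F_0| + |F'|` (`F_V` is the disjoint union of its members with and without `k`; `T ↦ T.erase k` is injective on the members with `k`).
* `last_sum`: `2 fr F_V k - |F_V| = |F'| - |F_0|` (`fr F_V k = |F'|`).
* `lk_card_le`: `|F'| ≤ |Hs A V k|` (`F' ⊆ Hs A V k`: for `T ∈ F`, `T ⊆ V`, `k ∈ T`: `T.erase k ⊆ V.erase k` and `T ⊆ insert k (T.erase k)`).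
* `step_sum`: if `3 |Hs A V k| ≤ 2 ^ (|V| - 1)` then `sg F_0 (V - k) + 3 |F'| - |Hs A V k| ≤ sg F_V (V - k)`: for `x ≠ k`: `fr F_V x = fr F_0 x + fr F' x` and `|F_V| = |F_0| + |F'|`, so
  `sg F_V (V - k) = sg F_0 (V - k) + sg F' (V - k)`; `claim2` with `V.erase k`, `F'` (union-closed, because `F` is: `(T ∪ T').erase k = T.erase k ∪ T'.erase k`) and `H = Hs A V k`
  (an up-set of subsets of `V - k` that contains `F'`).
* `step_all`: the two parts together, `sg F_V V = sg F_V (V - k) + (|F'| - |F_0|)`.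
-/

set_option autoImplicit false

namespace Pool.Agent.H28.DF

open Finset

variable {α : Type*} [DecidableEq α]

theorem DFb_inj (F : Finset (Finset α)) (k : α) :
    Set.InjOn (fun T : Finset α => T.erase k) ((F.filter fun T => k ∈ T : Finset (Finset α)) : Set (Finset α)) := by
  intro T hT T' hT' h
  have h1 := (mem_filter.1 (mem_coe.1 hT)).2
  have h2 := (mem_filter.1 (mem_coe.1 hT')).2
  replace h : T.erase k = T'.erase k := h
  rw [← insert_erase h1, h, insert_erase h2]

theorem DFb_lk_card (F : Finset (Finset α)) (k : α) : (lk F k).card = fr F k := by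
  unfold lk fr
  exact card_image_of_injOn (DFb_inj F k)

theorem DFb_ins_erase (F : Finset (Finset α)) (V : Finset α) (k : α) :
    ins F (V.erase k) = (ins F V).filter fun T => ¬ k ∈ T := by
  unfold ins
  rw [filter_filter]
  exact filter_congr fun T _ => subset_erase

theorem DFb_fr (F : Finset (Finset α)) (V : Finset α) {k x : α} (hx : x ≠ k) :
    fr (ins F V) x = fr (ins F (V.erase k)) x + fr (lk (ins F V) k) x := by
  have h1 := card_filter_add_card_filter_not (s := (ins F V).filter fun T => x ∈ T) (fun T => k ∈ T)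
  have h2 : fr (ins F (V.erase k)) x =
      (((ins F V).filter fun T => x ∈ T).filter fun T => ¬ k ∈ T).card := by
    unfold fr
    rw [DFb_ins_erase, filter_filter, filter_filter]
    congr 1
    exact filter_congr fun T _ => and_comm
  have h3 : fr (lk (ins F V) k) x =
      (((ins F V).filter fun T => x ∈ T).filter fun T => k ∈ T).card := by
    unfold fr lk
    rw [filter_image, card_image_of_injOn, filter_filter, filter_filter]
    · congr 1
      refine filter_congr fun T _ => ?_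
      rw [mem_erase]
      constructor
      · rintro ⟨a, _, b⟩
        exact ⟨b, a⟩
      · rintro ⟨a, b⟩
        exact ⟨b, hx, a⟩
    · exact (DFb_inj (ins F V) k).mono (coe_subset.2 (filter_subset _ _))
  rw [h2, h3]
  unfold fr
  omega

theorem DFb_lk_sub {A F : Finset (Finset α)} (hFA : F ⊆ A) (V : Finset α) (k : α) :
    lk (ins F V) k ⊆ Hs A V k := by
  intro Y hY
  obtain ⟨T, hT, rfl⟩ := mem_image.1 hY
  obtain ⟨h1, h2⟩ := mem_filter.1 hT
  obtain ⟨h3, h4⟩ := mem_filter.1 h1
  refine mem_filter.2 ⟨mem_powerset.2 (erase_subset_erase k h4), T, hFA h3, h2, ?_⟩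
  exact (insert_erase h2).symm.subset

theorem DFb_lk_unc {F : Finset (Finset α)} (hF : Pool.Agent.H78.UC.UnC F) (V : Finset α) (k : α) :
    Pool.Agent.H78.UC.UnC (lk (ins F V) k) := by
  intro Y hY Z hZ
  obtain ⟨T, hT, rfl⟩ := mem_image.1 hY
  obtain ⟨T', hT', rfl⟩ := mem_image.1 hZ
  obtain ⟨h1, h2⟩ := mem_filter.1 hT
  obtain ⟨h3, h4⟩ := mem_filter.1 h1
  obtain ⟨h1', h2'⟩ := mem_filter.1 hT'
  obtain ⟨h3', h4'⟩ := mem_filter.1 h1'
  refine mem_image.2 ⟨T ∪ T', mem_filter.2 ⟨mem_filter.2 ⟨hF _ h3 _ h3', union_subset h4 h4'⟩,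
    mem_union_left _ h2⟩, ?_⟩
  exact erase_union_distrib T T' k

theorem card_ins {F : Finset (Finset α)} {V : Finset α} {k : α} (hk : k ∈ V) :
    (ins F V).card = (ins F (V.erase k)).card + (lk (ins F V) k).card := by
  have h1 := card_filter_add_card_filter_not (s := ins F V) (fun T => k ∈ T)
  rw [DFb_lk_card, DFb_ins_erase]
  unfold fr
  omega

theorem last_sum {F : Finset (Finset α)} {V : Finset α} {k : α} (hk : k ∈ V) :
    2 * (fr (ins F V) k : ℤ) - ((ins F V).card : ℤ) = ((lk (ins F V) k).card : ℤ) - ((ins F (V.erase k)).card : ℤ) := by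
  have h1 := card_ins (F := F) hk
  have h2 := DFb_lk_card (ins F V) k
  omega

theorem lk_card_le {A F : Finset (Finset α)} (hFA : F ⊆ A) {V : Finset α} {k : α} (hk : k ∈ V) :
    (lk (ins F V) k).card ≤ (Hs A V k).card :=
  card_le_card (DFb_lk_sub hFA V k)

theorem step_sum {A F : Finset (Finset α)} (hF : Pool.Agent.H78.UC.UnC F) (hFA : F ⊆ A) {V : Finset α} {k : α} (hk : k ∈ V)
    (h : 3 * (Hs A V k).card ≤ 2 ^ (V.card - 1)) :
    sg (ins F (V.erase k)) (V.erase k) + 3 * ((lk (ins F V) k).card : ℤ) - ((Hs A V k).card : ℤ) ≤ sg (ins F V) (V.erase k) := by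
  have h1 := claim2 (V := V.erase k) (F := lk (ins F V) k) (H := Hs A V k)
    (fun Y hY => mem_powerset.1 (mem_filter.1 hY).1)
    (fun Y hY Z hZ hYZ => by
      obtain ⟨_, T, hT, hkT, hTY⟩ := mem_filter.1 hY
      exact mem_filter.2 ⟨mem_powerset.2 hZ, T, hT, hkT, hTY.trans (insert_subset_insert k hYZ)⟩)
    (DFb_lk_sub hFA V k) (DFb_lk_unc hF V k) (by rw [card_erase_of_mem hk]; exact h)
  have h2 : sg (ins F V) (V.erase k) =
      sg (ins F (V.erase k)) (V.erase k) + sg (lk (ins F V) k) (V.erase k) := by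
    unfold sg
    rw [← sum_add_distrib]
    refine sum_congr rfl fun x hx => ?_
    have h3 := DFb_fr F V (mem_erase.1 hx).1
    have h4 := card_ins (F := F) hk
    omega
  omega

theorem step_all {A F : Finset (Finset α)} (hF : Pool.Agent.H78.UC.UnC F) (hFA : F ⊆ A) {V : Finset α} {k : α} (hk : k ∈ V)
    (h : 3 * (Hs A V k).card ≤ 2 ^ (V.card - 1)) :
    sg (ins F (V.erase k)) (V.erase k) + 4 * ((lk (ins F V) k).card : ℤ) - ((Hs A V k).card : ℤ) - ((ins F (V.erase k)).card : ℤ) ≤ sg (ins F V) V := by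
  have h1 := step_sum hF hFA hk h
  have h2 := last_sum (F := F) hk
  have h3 : sg (ins F V) V = (2 * (fr (ins F V) k : ℤ) - ((ins F V).card : ℤ)) + sg (ins F V) (V.erase k) := by
    unfold sg
    exact (add_sum_erase V _ hk).symm
  omega

end Pool.Agent.H28.DF
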