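import Pool.Agent.H28.DF.Cb

/-!
# MP_75f39d_co, DenseFamilies, row DFc: families without a core

`coreless`: `∅ ∈ A`, no `S ⊆ V` is a core of `A`, `F ⊆ A` union-closed, `f = 1` if `∅ ∈ F`, else `0`. Then
(1) `|ins A V| ≤ aa |V|`; (2) `|ins F V| + 1 ≤ aa |V| + f`; (3) `4 (|ins F V| - f) - ls |V| + |V| (1 - f) ≤ sg (ins F V) V`.
Proof by induction on `|V|` (`Finset.strongInduction` or induction on `n` with `V.card = n` generalizing `V`). `V = ∅`: `ins A ∅ = {∅}` (as `∅ ∈ A`), `ins F ∅` is `{∅}` or `∅`, `sg _ ∅ = 0`.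
`V` not empty, `|V| = n + 1`: `V` itself is not a core, so some `k ∈ V` has `3 |Hs A V k| < 2 ^ n`, so `|Hs A V k| ≤ qq n` (`omega` after `Nat.div` facts: `Nat.le_div_iff_mul_le`).
`V.erase k` has `n` points and no core. (1): `card_ins` and `lk_card_le` with `F = A`. (2): `card_ins`, `lk_card_le` and the induction hypothesis. (3): `step_all`, `card_ins`, (2) for `V.erase k`:
`sg (ins F V) V ≥ [4 (D' - f) - ls n + n (1 - f)] + 4 α - |Hs| - D'`, `D = D' + α`, `|Hs| ≤ qq n`, `D' ≤ aa n + f - 1`, `ls (n+1) = ls n + qq n + aa n`; so it is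
`≥ 4 (D - f) - ls (n+1) + (n + 1)(1 - f)`. (`rcases` on `∅ ∈ F` and `linarith`/`nlinarith` after `push_cast`.)
Numbers: `aa_le`: `3 aa n + 2 ≤ 2 ^ n` for `n ≥ 3` (induction, `3 qq n + 1 ≤ 2 ^ n` because `3` does not divide `2 ^ n`); `ls_le`: `3 ls n + 13 ≤ 2 * 2 ^ n` for `n ≥ 5` (`decide` at `5`; step with `aa_le` and `qq`:
`3 ls (n+1) = 3 ls n + 3 qq n + 3 aa n ≤ 3 ls n + 2 * 2 ^ n - 3`). `qq_le`: `3 qq n + 1 ≤ 2 ^ n` (if `3 ∣ 2 ^ n` then `3 ∣ 2`, `Nat.Prime.dvd_of_dvd_pow`).
-/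

set_option autoImplicit false

namespace Pool.Agent.H28.DF

open Finset

variable {α : Type*} [DecidableEq α]

private theorem Cc_ins_empty (F : Finset (Finset α)) :
    (ins F ∅).card = if ∅ ∈ F then 1 else 0 := by
  by_cases h : ∅ ∈ F
  · rw [if_pos h, card_eq_one]
    refine ⟨∅, ?_⟩
    ext T
    rw [ins, mem_filter, mem_singleton, subset_empty]
    constructor
    · exact fun h1 => h1.2
    · rintro rfl
      exact ⟨h, rfl⟩
  · rw [if_neg h, card_eq_zero]
    refine eq_empty_of_forall_notMem fun T hT => ?_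
    rw [ins, mem_filter, subset_empty] at hT
    exact h (hT.2 ▸ hT.1)

theorem coreless {A F : Finset (Finset α)} (h0 : ∅ ∈ A) (hF : Pool.Agent.H78.UC.UnC F) (hFA : F ⊆ A) (V : Finset α) (hV : ∀ S ⊆ V, ¬ IsCore A S) :
    (ins A V).card ≤ aa V.card ∧
    ((ins F V).card : ℤ) + 1 ≤ (aa V.card : ℤ) + (if ∅ ∈ F then 1 else 0) ∧
    4 * (((ins F V).card : ℤ) - (if ∅ ∈ F then 1 else 0)) - (ls V.card : ℤ) + (V.card : ℤ) * (1 - (if ∅ ∈ F then 1 else 0)) ≤ sg (ins F V) V := by
  generalize hn : V.card = n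
  induction n generalizing V with
  | zero =>
    rw [card_eq_zero] at hn
    subst hn
    have h1 := Cc_ins_empty A
    have h2 := Cc_ins_empty F
    rw [if_pos h0] at h1
    have h3 : sg (ins F ∅) ∅ = 0 := rfl
    rw [h3, h1, h2]
    refine ⟨le_refl 1, ?_, ?_⟩
    · split_ifs <;> simp [aa]
    · split_ifs <;> simp [ls]
  | succ n ih =>
    have hne : V.Nonempty := by
      rw [← card_pos, hn]
      exact Nat.succ_pos n
    have h1 : ∃ k ∈ V, 3 * (Hs A V k).card < 2 ^ n := by
      by_contra hcon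
      push Not at hcon
      refine hV V (Subset.refl V) ⟨hne, fun i hi => ?_⟩
      rw [hn, Nat.add_sub_cancel]
      exact hcon i hi
    obtain ⟨k, hk, hlt⟩ := h1
    have hq : (Hs A V k).card ≤ qq n := by
      rw [qq, Nat.le_div_iff_mul_le (by norm_num)]
      omega
    have hc : (V.erase k).card = n := by
      rw [card_erase_of_mem hk, hn, Nat.add_sub_cancel]
    obtain ⟨i1, i2, i3⟩ := ih (V.erase k) (fun S hS => hV S (hS.trans (erase_subset k V))) hc
    have a1 := card_ins (F := A) hk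
    have a2 := card_ins (F := F) hk
    have a3 := lk_card_le (Subset.refl A) hk
    have a4 := lk_card_le hFA hk
    have a5 := step_all hF hFA hk (by rw [hn, Nat.add_sub_cancel]; exact hlt.le)
    have e1 : aa (n + 1) = aa n + qq n := rfl
    have e2 : ls (n + 1) = ls n + qq n + aa n := rfl
    rw [e1, e2]
    refine ⟨by omega, ?_, ?_⟩
    · push_cast
      omega
    · push_cast
      have hq' : ((Hs A V k).card : ℤ) ≤ (qq n : ℤ) := by exact_mod_cast hq
      have a2' : ((ins F V).card : ℤ) = ((ins F (V.erase k)).card : ℤ) + ((lk (ins F V) k).card : ℤ) := by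
        exact_mod_cast a2
      rw [a2']
      linarith

theorem qq_le (n : ℕ) : 3 * qq n + 1 ≤ 2 ^ n := by
  have h : 2 ^ n % 3 = 1 ∨ 2 ^ n % 3 = 2 := by
    induction n with
    | zero => left; rfl
    | succ n ih =>
      rw [pow_succ]
      omega
  rw [qq]
  omega

theorem aa_le {n : ℕ} (hn : 3 ≤ n) : 3 * aa n + 2 ≤ 2 ^ n := by
  induction n, hn using Nat.le_induction with
  | base => decide
  | succ n _ ih =>
    have h1 := qq_le n
    have e1 : aa (n + 1) = aa n + qq n := rfl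
    rw [e1, pow_succ]
    omega

theorem ls_le {n : ℕ} (hn : 5 ≤ n) : 3 * ls n + 13 ≤ 2 * 2 ^ n := by
  induction n, hn using Nat.le_induction with
  | base => decide
  | succ n h5 ih =>
    have h1 := qq_le n
    have h2 := aa_le (n := n) (by omega)
    have e2 : ls (n + 1) = ls n + qq n + aa n := rfl
    rw [e2, pow_succ]
    omega

end Pool.Agent.H28.DF
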