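import Pool.Agent.H28.DF.Defs

/-!
# MP_75f39d_co, DenseFamilies, row DFd: the sum over a core (local T5*)

Uses `Pool.Agent.H78.UC` (`Gp`, `Gq`): `UnC`, `Ni`, `bad`, `DD`, `Hyp`, `sum_Ni_le`, `hyp_of_card`.
`sl A S R` = the `T ∩ S` for the members `T` with `T ∖ S = R`.
* `sg_eq`: `sg B S = |bad B S| - ∑ i ∈ S, |Ni B i|` if all members of `B` are inside `S`: for `i ∈ S`: `2 fr B i - |B| = #{w ∈ B : i ∈ w} - #{w ∈ B : i ∉ w}`, and `w ↦ w.erase i` is a bijection from
  `{w ∈ B : i ∈ w, w - i ∈ B}` to `{w ∈ B : i ∉ w, w + i ∈ B}`; so it is `#{w ∈ B : i ∈ w, w - i ∉ B} - |Ni B i|`; `|bad B S| = ∑ i ∈ S, #{w ∈ B : i ∈ w, w - i ∉ B}`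
  (`card_filter`, `sum_product_right`).
* `sg_slices`: `sg A S = ∑ R ∈ A.image (· \ S), sg (sl A S R) S`: for every predicate `#{T ∈ A : P (T ∩ S)} = ∑ R, #{w ∈ sl A S R : P w}` (`card_eq_sum_card_fiberwise` with `T ↦ T \ S`;
  `T ↦ T ∩ S` is injective on the fibre, `T = (T ∩ S) ∪ (T \ S)`), used with `x ∈ ·` (`x ∈ T ↔ x ∈ T ∩ S` for `x ∈ S`) and `True`; exchange the sums.
* `sl_unC`, `sl_sub`, `sl_union`: `sl A S R` is union-closed, its members are inside `S`, and `T ∪ w ∈ sl A S R` for `T ∈ ins A S`, `w ∈ sl A S R` (`w = T' ∩ S`: `T ∪ w = (T ∪ T') ∩ S`,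
  `(T ∪ T') \ S = R`).
* `core_hyp`: `IsCore A S`, `i ∈ S` → `Hyp (sl A S R) (ins A S) S i`: `hyp_of_card`; the filtered family is the complement of `Hs A S i` in `(S.erase i).powerset` (a `T ⊆ insert i Y` is inside `S`),
  `card_erase_of_mem`, `card_powerset`, `filter_card_add_filter_neg_card_eq_card`.
* `core_slice`: `0 ≤ sg (sl A S R) S` by `sg_eq` and `sum_Ni_le`. `core_sum`: `0 ≤ sg A S`. `sl_empty`: `sl A S ∅ = ins A S`.
-/

set_option autoImplicit false

namespace Pool.Agent.H28.DF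

open Finset Pool.Agent.H78.UC

variable {α : Type*} [DecidableEq α]

/-- The traces on `S` of the members with trace `R` outside `S`. -/
def sl (A : Finset (Finset α)) (S R : Finset α) : Finset (Finset α) := (A.filter fun T => T \ S = R).image fun T => T ∩ S

private theorem cd_split (B : Finset (Finset α)) (P Q : Finset α → Prop) [DecidablePred P]
    [DecidablePred Q] :
    (B.filter fun w => P w ∧ Q w).card + (B.filter fun w => P w ∧ ¬ Q w).card = (B.filter P).card := by
  rw [← filter_filter, ← filter_filter]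
  exact card_filter_add_card_filter_not _

private theorem cd_pt (B : Finset (Finset α)) (i : α) :
    2 * (fr B i : ℤ) - (B.card : ℤ) =
      ((B.filter fun w => i ∈ w ∧ w.erase i ∉ B).card : ℤ) - ((Ni B i).card : ℤ) := by
  have h1 : (B.filter fun w => i ∈ w).card + (B.filter fun w => ¬ i ∈ w).card = B.card :=
    card_filter_add_card_filter_not _
  have h2 := cd_split B (fun w => i ∈ w) (fun w => w.erase i ∈ B)
  have h3 := cd_split B (fun w => ¬ i ∈ w) (fun w => insert i w ∈ B)
  have h4 : (B.filter fun w => i ∈ w ∧ w.erase i ∈ B).card =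
      (B.filter fun w => ¬ i ∈ w ∧ insert i w ∈ B).card := by
    refine card_bij' (fun w _ => w.erase i) (fun w _ => insert i w) ?_ ?_ ?_ ?_
    · intro w hw
      rw [mem_filter] at hw ⊢
      refine ⟨hw.2.2, notMem_erase i w, ?_⟩
      rw [insert_erase hw.2.1]
      exact hw.1
    · intro w hw
      rw [mem_filter] at hw ⊢
      refine ⟨hw.2.2, mem_insert_self i w, ?_⟩
      rw [erase_insert hw.2.1]
      exact hw.1
    · intro w hw
      exact insert_erase (mem_filter.1 hw).2.1
    · intro w hw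
      exact erase_insert (mem_filter.1 hw).2.1
  have h5 : (Ni B i).card = (B.filter fun w => ¬ i ∈ w ∧ ¬ insert i w ∈ B).card := rfl
  have h6 : fr B i = (B.filter fun w => i ∈ w).card := rfl
  rw [h5, h6]
  omega

theorem sg_eq {B : Finset (Finset α)} {S : Finset α} (hBS : ∀ w ∈ B, w ⊆ S) :
    sg B S = ((bad B S).card : ℤ) - ∑ i ∈ S, ((Ni B i).card : ℤ) := by
  unfold sg
  have hb : (bad B S).card = ∑ i ∈ S, (B.filter fun w => i ∈ w ∧ w.erase i ∉ B).card := by
    unfold bad
    rw [card_filter, sum_product_right]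
    exact sum_congr rfl fun i _ => (card_filter _ _).symm
  rw [hb, Nat.cast_sum, ← sum_sub_distrib]
  exact sum_congr rfl fun i _ => cd_pt B i

private theorem cd_count (A : Finset (Finset α)) (S : Finset α) (P : Finset α → Prop)
    [DecidablePred P] :
    (A.filter fun T => P (T ∩ S)).card =
      ∑ R ∈ A.image (fun T => T \ S), ((sl A S R).filter P).card := by
  rw [card_eq_sum_card_fiberwise (f := fun T => T \ S) (t := A.image (fun T => T \ S))
    (fun T hT => mem_image_of_mem _ (mem_filter.1 hT).1)]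
  refine sum_congr rfl fun R _ => ?_
  unfold sl
  rw [filter_image, card_image_of_injOn, filter_filter, filter_filter]
  · refine congrArg card (filter_congr fun T _ => ?_)
    exact ⟨fun h => ⟨h.2, h.1⟩, fun h => ⟨h.2, h.1⟩⟩
  · intro T hT T' hT' he
    rw [mem_coe, mem_filter, mem_filter] at hT hT'
    dsimp only at he
    rw [← sdiff_union_inter T S, ← sdiff_union_inter T' S, hT.1.2, hT'.1.2, he]

theorem sg_slices (A : Finset (Finset α)) (S : Finset α) : sg A S = ∑ R ∈ A.image (fun T => T \ S), sg (sl A S R) S := by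
  have h1 : A.card = ∑ R ∈ A.image (fun T => T \ S), (sl A S R).card := by
    have h2 := cd_count A S (fun _ => True)
    simp only [filter_true] at h2
    exact h2
  have h3 : ∀ x ∈ S, fr A x = ∑ R ∈ A.image (fun T => T \ S), fr (sl A S R) x := by
    intro x hx
    have h2 := cd_count A S (fun w => x ∈ w)
    have h4 : (A.filter fun T => x ∈ T ∩ S) = A.filter fun T => x ∈ T :=
      filter_congr fun T _ => ⟨fun h => (mem_inter.1 h).1, fun h => mem_inter.2 ⟨h, hx⟩⟩
    rw [h4] at h2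
    exact h2
  unfold sg
  rw [sum_comm]
  refine sum_congr rfl fun x hx => ?_
  rw [h3 x hx, h1, Nat.cast_sum, Nat.cast_sum, sum_sub_distrib, mul_sum]

theorem sl_unC {A : Finset (Finset α)} (hA : UnC A) (S R : Finset α) : UnC (sl A S R) := by
  intro s hs t ht
  unfold sl at hs ht ⊢
  rw [mem_image] at hs ht ⊢
  obtain ⟨T, hT, rfl⟩ := hs
  obtain ⟨T', hT', rfl⟩ := ht
  rw [mem_filter] at hT hT'
  refine ⟨T ∪ T', mem_filter.2 ⟨hA T hT.1 T' hT'.1, ?_⟩, union_inter_distrib_right _ _ _⟩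
  rw [union_sdiff_distrib, hT.2, hT'.2, union_self]

theorem sl_sub {A : Finset (Finset α)} {S R w : Finset α} (hw : w ∈ sl A S R) : w ⊆ S := by
  unfold sl at hw
  rw [mem_image] at hw
  obtain ⟨T, _, rfl⟩ := hw
  exact inter_subset_right

theorem sl_union {A : Finset (Finset α)} (hA : UnC A) {S R : Finset α} : ∀ T ∈ ins A S, ∀ w ∈ sl A S R, T ∪ w ∈ sl A S R := by
  intro T hT w hw
  unfold sl at hw ⊢
  rw [mem_image] at hw ⊢
  obtain ⟨T', hT', rfl⟩ := hw
  rw [mem_filter] at hT'
  have hT1 := (mem_filter.1 hT).1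
  have hT2 : T ⊆ S := (mem_filter.1 hT).2
  refine ⟨T ∪ T', mem_filter.2 ⟨hA T hT1 T' hT'.1, ?_⟩, ?_⟩
  · rw [union_sdiff_distrib, hT'.2, sdiff_eq_empty_iff_subset.2 hT2, empty_union]
  · rw [union_inter_distrib_right, inter_eq_left.2 hT2]

theorem sl_empty (A : Finset (Finset α)) (S : Finset α) : sl A S ∅ = ins A S := by
  ext w
  unfold sl ins
  rw [mem_image, mem_filter]
  constructor
  · rintro ⟨T, hT, rfl⟩
    rw [mem_filter, sdiff_eq_empty_iff_subset] at hT
    rw [inter_eq_left.2 hT.2]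
    exact hT
  · rintro ⟨h1, h2⟩
    exact ⟨w, mem_filter.2 ⟨h1, sdiff_eq_empty_iff_subset.2 h2⟩, inter_eq_left.2 h2⟩

theorem core_hyp {A : Finset (Finset α)} (hA : UnC A) {S : Finset α} (h : IsCore A S) (R : Finset α) {i : α} (hi : i ∈ S) :
    Hyp (sl A S R) (ins A S) S i := by
  refine hyp_of_card (sl_union hA) ?_
  have h1 := h.2 i hi
  have h2 : ((S.erase i).powerset.filter fun Y => ∀ T ∈ ins A S, i ∈ T → ¬ T ⊆ insert i Y) =
      (S.erase i).powerset.filter fun Y => ¬ ∃ T ∈ A, i ∈ T ∧ T ⊆ insert i Y := by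
    refine filter_congr fun Y hY => ?_
    have hYS : insert i Y ⊆ S :=
      insert_subset hi ((mem_powerset.1 hY).trans (erase_subset i S))
    constructor
    · rintro h3 ⟨T, hT, hiT, hTY⟩
      exact h3 T (mem_filter.2 ⟨hT, hTY.trans hYS⟩) hiT hTY
    · intro h3 T hT hiT hTY
      exact h3 ⟨T, (mem_filter.1 hT).1, hiT, hTY⟩
  rw [h2]
  have h3 : (Hs A S i).card +
      ((S.erase i).powerset.filter fun Y => ¬ ∃ T ∈ A, i ∈ T ∧ T ⊆ insert i Y).card =
      (S.erase i).powerset.card := card_filter_add_card_filter_not _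
  rw [card_powerset] at h3
  have h4 : (S.erase i).card = S.card - 1 := card_erase_of_mem hi
  rw [h4] at h3 ⊢
  omega

theorem core_slice {A : Finset (Finset α)} (hA : UnC A) {S : Finset α} (h : IsCore A S) (R : Finset α) : 0 ≤ sg (sl A S R) S := by
  have hs : ∀ w ∈ sl A S R, w ⊆ S := fun w hw => sl_sub hw
  rw [sg_eq hs]
  have h1 := sum_Ni_le (sl_unC hA S R) hs (sl_union hA) fun i hi => core_hyp hA h R hi
  have h2 : ∑ i ∈ S, ((Ni (sl A S R) i).card : ℤ) ≤ ((bad (sl A S R) S).card : ℤ) := by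
    rw [← Nat.cast_sum]
    exact_mod_cast h1
  linarith

theorem core_sum {A : Finset (Finset α)} (hA : UnC A) {S : Finset α} (h : IsCore A S) : 0 ≤ sg A S := by
  rw [sg_slices]
  exact sum_nonneg fun R _ => core_slice hA h R

end Pool.Agent.H28.DF
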