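import Pool.Agent.H28.DF.Cd

/-!
# MP_75f39d_co, DenseFamilies, row DFe: the strict form for a core without members of size one or two

`cc_lt`: `B` union-closed, `∅ ∈ B`, `p = (T', j) ∈ Pi B S i` (notation of `Pool.Agent.H78.UC.Gp`), `i ≠ j`, `i, j ∈ S`, `bs B p = ∅`, `{i} ∉ B`, `{j} ∉ B`, `{i, j} ∉ B`, `E = B`. Then
`2 ^ (|KK B p| - 1) * CC B S T' < cc B B S i ∅`. Proof: COPY the proof of `pow_mul_CC_le` (`Pool.Agent.H78.UC.Gp`) with the target set `(...).erase {j}`: the map
`(L, X) ↦ (X \ T') ∪ (bs B p ∪ L)`, `L ⊆ K - i ⊆ T' - j`, never takes the value `{j}` (`j ∈ T'`, `j ∉ L`), and `{j}` is in the filter: `{j} ⊆ S.erase i`, `DD B B i {j}` (a member `T ⊆ {i, j}` with `i ∈ T`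
is `{i}` or `{i, j}`), `pm B {j} = ∅` (`pm_eq` with `W = ∅`: a member inside `{j}` is `∅` or `{j}`). Then `card_le_card_of_injOn` and `card_erase_of_mem`.
`core_strict`: `∅ ∈ A`, `S` a core, every nonempty member inside `S` has at least three elements. Then `0 < sg A S`.
Proof: `sg_slices`; every term is `≥ 0` (`core_slice`), `∅ = ∅ \ S` is one of the `R`, `sl A S ∅ = ins A S =: B`; it remains `0 < sg B S`. `S` is not empty and a core, so for some `i0 ∈ S` `Hs A S i0` is not empty,
so some nonempty member is inside `S`; let `T'` be one of smallest size (`exists_min_image`), `3 ≤ |T'|`, `i ≠ j ∈ T'` (`one_lt_card`). `p = (T', j)`: `T'.erase j ∉ B` (smaller, not empty), so `p ∈ bad B S`; `bs B p = ∅`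
(a member inside `T'.erase j` is empty), `KK B p = T'.erase j ∋ i`, so `p ∈ Pi B S i`; `∅ ∈ Ni B i` (`{i} ∉ B`, size). `cc_lt` gives `CC B S T' / cc B B S i ∅ < (1/2) ^ (|KK| - 1)`; with `card_Ni_le`, `term_le` and
`sum_lt_sum` (over `Pi B S i` filtered, then `sum_le_sum_of_subset_of_nonneg`): `|Ni B i| < ∑ p ∈ Pi B S i, (1/2) ^ (|KK B p| - 1)`; for the other points `card_Ni_le_pow`; `sum_lt_sum`, `sum_Pi`, `card_mul_pow_le`
as in `sum_Ni_le`: `∑ i ∈ S, |Ni B i| < |bad B S|`; `sg_eq`. (`core_hyp hA h ∅ hi` rewritten with `sl_empty` is `Hyp B B S i`.)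
-/

set_option autoImplicit false

namespace Pool.Agent.H28.DF

open Finset Pool.Agent.H78.UC

variable {α : Type*} [DecidableEq α]

theorem cc_lt {B : Finset (Finset α)} {S : Finset α} {i j : α} {T' : Finset α} (hB : UnC B) (h0 : ∅ ∈ B) (hj : j ∈ S) (hij : i ≠ j)
    (hp : (T', j) ∈ Pi B S i) (hb : bs B (T', j) = ∅) (h1 : {i} ∉ B) (h2 : {j} ∉ B) (h3 : ({i, j} : Finset α) ∉ B) :
    2 ^ ((KK B (T', j)).card - 1) * CC B S T' < cc B B S i ∅ := by
  have hE : ∀ T ∈ B, ∀ w ∈ B, T ∪ w ∈ B := hB
  have hbB : bs B (T', j) ∈ B := by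
    rw [hb]
    exact h0
  obtain ⟨hp1, hiK⟩ := mem_filter.mp hp
  obtain ⟨hp2, hjT, hTe⟩ := mem_filter.mp hp1
  obtain ⟨hTB, hjS⟩ := mem_product.mp hp2
  obtain ⟨hiTe, hiW⟩ := mem_sdiff.mp hiK
  simp only at hp1 hp2 hjT hTe hTB hjS hiTe hiW
  have hiT : i ∈ T' := mem_of_mem_erase hiTe
  have hWT : bs B (T', j) ⊆ T'.erase j := pm_sub
  have hKT : KK B (T', j) ⊆ T'.erase j := sdiff_subset
  have hcard : 2 ^ ((KK B (T', j)).card - 1) * CC B S T' =
      (((KK B (T', j)).erase i).powerset ×ˢ (S.powerset.filter fun X => pm B X = T')).card := by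
    rw [card_product, card_powerset, card_erase_of_mem hiK, CC]
  have hjmem : ({j} : Finset α) ∈ (S.erase i).powerset.filter fun Y => DD B B i Y ∧ pm B Y = ∅ := by
    refine mem_filter.mpr ⟨mem_powerset.mpr ?_, ?_, ?_⟩
    · rw [singleton_subset_iff]
      exact mem_erase.mpr ⟨hij.symm, hj⟩
    · intro T hT hiT2 hTs
      have hTB2 : T ∈ B := by
        rcases mem_union.mp hT with h | h
        · exact h
        · exact h
      by_cases hjT2 : j ∈ T
      · have : T = {i, j} := by
          refine subset_antisymm hTs ?_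
          intro a ha
          rw [mem_insert, mem_singleton] at ha
          rcases ha with rfl | rfl
          · exact hiT2
          · exact hjT2
        exact h3 (this ▸ hTB2)
      · have : T = {i} := by
          refine subset_antisymm ?_ (singleton_subset_iff.mpr hiT2)
          intro a ha
          have h4 := hTs ha
          rw [mem_insert, mem_singleton] at h4
          rcases h4 with h4 | h4
          · exact mem_singleton.mpr h4
          · exact absurd (h4 ▸ ha) hjT2
        exact h1 (this ▸ hTB2)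
    · refine pm_eq h0 (empty_subset _) fun w hw hws => ?_
      rcases subset_singleton_iff.mp hws with h | h
      · rw [h]
      · exact absurd (h ▸ hw) h2
  have hle : 2 ^ ((KK B (T', j)).card - 1) * CC B S T' ≤
      (((S.erase i).powerset.filter fun Y => DD B B i Y ∧ pm B Y = ∅).erase {j}).card := by
    rw [hcard]
    refine card_le_card_of_injOn (fun q => (q.2 \ T') ∪ (bs B (T', j) ∪ q.1)) ?_ ?_
    · rintro ⟨L, X⟩ hq
      obtain ⟨hL, hX⟩ := mem_product.mp (mem_coe.mp hq)
      have hL' := mem_powerset.mp hL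
      obtain ⟨hXS, hpm⟩ := mem_filter.mp hX
      have hXS' := mem_powerset.mp hXS
      simp only at hL' hXS' hpm ⊢
      have hTX : T' ⊆ X := hpm ▸ pm_sub
      have hLK : L ⊆ KK B (T', j) := hL'.trans (erase_subset _ _)
      have hLT : L ⊆ T'.erase j := hLK.trans hKT
      have hYX : (X \ T') ∪ (bs B (T', j) ∪ L) ⊆ X :=
        union_subset sdiff_subset (union_subset ((hWT.trans (erase_subset _ _)).trans hTX)
          ((hLT.trans (erase_subset _ _)).trans hTX))
      have hiY : i ∉ (X \ T') ∪ (bs B (T', j) ∪ L) := by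
        simp only [mem_union, mem_sdiff]
        rintro (h | h | h)
        · exact h.2 hiT
        · exact hiW h
        · exact notMem_erase i _ (hL' h)
      have hjY : j ∉ (X \ T') ∪ (bs B (T', j) ∪ L) := by
        simp only [mem_union, mem_sdiff]
        rintro (h | h | h)
        · exact h.2 hjT
        · exact notMem_erase j _ (hWT h)
        · exact notMem_erase j _ (hLT h)
      -- members inside `Y ∪ {i}` and inside `T` are inside `T - j`
      have key : ∀ w, w ∈ B → w ⊆ insert i ((X \ T') ∪ (bs B (T', j) ∪ L)) → w ⊆ bs B (T', j) := by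
        intro w hw hws
        have h1 : w ⊆ X := hws.trans (insert_subset (hTX hiT) hYX)
        have h2 : w ⊆ T' := hpm ▸ le_pm hw h1
        refine le_pm hw fun a ha => ?_
        have h3 := hws ha
        simp only [mem_insert, mem_union, mem_sdiff] at h3
        rcases h3 with h | h | h | h
        · exact h ▸ hiTe
        · exact absurd (h2 ha) h.2
        · exact hWT h
        · exact hLT h
      refine mem_coe.mpr (mem_erase.mpr ⟨?_, mem_filter.mpr ⟨mem_powerset.mpr ?_, ?_, ?_⟩⟩)
      · intro h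
        exact hjY (h ▸ mem_singleton_self j)
      · intro a ha
        exact mem_erase.mpr ⟨fun h => hiY (h ▸ ha), hXS' (hYX ha)⟩
      · intro T2 hT2 hiT2 hT2s
        have h1 : T2 ∪ bs B (T', j) ∈ B := by
          rcases mem_union.mp hT2 with h | h
          · exact hB _ h _ hbB
          · exact hE _ h _ hbB
        have h2 := key _ h1 (union_subset hT2s
          ((subset_union_left.trans subset_union_right).trans (subset_insert _ _)))
        exact hiW (h2 (mem_union_left _ hiT2))
      · refine pm_eq h0 (empty_subset _) fun w hw hws => ?_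
        rw [← hb]
        exact key w hw (hws.trans (subset_insert _ _))
    · rintro ⟨L, X⟩ hq ⟨L', X'⟩ hq' h
      obtain ⟨hL, hX⟩ := mem_product.mp (mem_coe.mp hq)
      obtain ⟨hL', hX'⟩ := mem_product.mp (mem_coe.mp hq')
      have hLs := mem_powerset.mp hL
      have hLs' := mem_powerset.mp hL'
      obtain ⟨-, hpm⟩ := mem_filter.mp hX
      obtain ⟨-, hpm'⟩ := mem_filter.mp hX'
      simp only at hLs hLs' hpm hpm' h
      have hTX : T' ⊆ X := hpm ▸ pm_sub
      have hTX' : T' ⊆ X' := hpm' ▸ pm_sub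
      have hK1 : KK B (T', j) ⊆ T' := hKT.trans (erase_subset _ _)
      have hW1 : bs B (T', j) ⊆ T' := hWT.trans (erase_subset _ _)
      have k1 : ∀ (Z M : Finset α), T' ⊆ Z → M ⊆ (KK B (T', j)).erase i →
          ((Z \ T') ∪ (bs B (T', j) ∪ M)) \ T' = Z \ T' := by
        intro Z M hZ hM
        ext a
        simp only [mem_sdiff, mem_union]
        constructor
        · rintro ⟨h1 | h1 | h1, h2⟩
          · exact h1
          · exact absurd (hW1 h1) h2
          · exact absurd (hK1 (mem_of_mem_erase (hM h1))) h2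
        · rintro h1
          exact ⟨Or.inl h1, h1.2⟩
      have k2 : ∀ (Z M : Finset α), T' ⊆ Z → M ⊆ (KK B (T', j)).erase i →
          ((Z \ T') ∪ (bs B (T', j) ∪ M)) ∩ (KK B (T', j)) = M := by
        intro Z M hZ hM
        ext a
        simp only [mem_inter, mem_union, mem_sdiff]
        constructor
        · rintro ⟨h1 | h1 | h1, h2⟩
          · exact absurd (hK1 h2) h1.2
          · exact absurd h1 (mem_sdiff.mp h2).2
          · exact h1
        · rintro h1
          exact ⟨Or.inr (Or.inr h1), mem_of_mem_erase (hM h1)⟩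
      have eL : L = L' := by rw [← k2 X L hTX hLs, ← k2 X' L' hTX' hLs', h]
      have eX : X = X' := by
        rw [← sdiff_union_of_subset hTX, ← sdiff_union_of_subset hTX', ← k1 X L hTX hLs,
          ← k1 X' L' hTX' hLs', h]
      rw [eL, eX]
  rw [card_erase_of_mem hjmem] at hle
  have hpos := card_pos.mpr ⟨_, hjmem⟩
  unfold cc
  omega

theorem core_strict {A : Finset (Finset α)} (hA : UnC A) (h0 : ∅ ∈ A) {S : Finset α} (h : IsCore A S)
    (h3 : ∀ T ∈ A, T ⊆ S → T.Nonempty → 3 ≤ T.card) : 0 < sg A S := by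
  have hB : UnC (ins A S) := by
    rw [← sl_empty]
    exact sl_unC hA S ∅
  have hBS : ∀ w ∈ ins A S, w ⊆ S := fun w hw => (mem_filter.mp hw).2
  have h0B : ∅ ∈ ins A S := mem_filter.mpr ⟨h0, empty_subset _⟩
  have hE : ∀ T ∈ ins A S, ∀ w ∈ ins A S, T ∪ w ∈ ins A S := hB
  have hyp : ∀ i ∈ S, Hyp (ins A S) (ins A S) S i := by
    intro i hi
    have := core_hyp hA h ∅ hi
    rwa [sl_empty] at this
  suffices hs : 0 < sg (ins A S) S by
    rw [sg_slices]
    refine lt_of_lt_of_le ?_ (single_le_sum (f := fun R => sg (sl A S R) S)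
      (fun R _ => core_slice hA h R) (mem_image.mpr ⟨∅, h0, rfl⟩))
    show 0 < sg (sl A S (∅ \ S)) S
    rw [empty_sdiff, sl_empty]
    exact hs
  have h3B : ∀ T ∈ ins A S, T.Nonempty → 3 ≤ T.card := fun T hT hne =>
    h3 T (mem_filter.mp hT).1 (mem_filter.mp hT).2 hne
  obtain ⟨⟨i0, hi0⟩, hcore⟩ := h
  have hHs : (Hs A S i0).Nonempty := by
    rw [nonempty_iff_ne_empty]
    intro he
    have h1 := hcore i0 hi0
    rw [he, card_empty, mul_zero] at h1
    have := Nat.two_pow_pos (S.card - 1)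
    omega
  have hM : ((ins A S).filter fun w => w.Nonempty).Nonempty := by
    obtain ⟨Y, hY⟩ := hHs
    obtain ⟨hYS, T, hT, hiT, hTs⟩ := mem_filter.mp hY
    refine ⟨T, mem_filter.mpr ⟨mem_filter.mpr ⟨hT, ?_⟩, ⟨i0, hiT⟩⟩⟩
    exact hTs.trans (insert_subset hi0 ((mem_powerset.mp hYS).trans (erase_subset _ _)))
  obtain ⟨T', hT'M, hmin⟩ := exists_min_image _ card hM
  obtain ⟨hT'B, hT'ne⟩ := mem_filter.mp hT'M
  have hmin' : ∀ w ∈ ins A S, w.Nonempty → T'.card ≤ w.card := fun w hw hne =>
    hmin w (mem_filter.mpr ⟨hw, hne⟩)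
  have hT3 : 3 ≤ T'.card := h3B T' hT'B hT'ne
  obtain ⟨i, hiT, j, hjT, hij⟩ := one_lt_card.mp (show 1 < T'.card by omega)
  have hiS : i ∈ S := hBS _ hT'B hiT
  have hjS : j ∈ S := hBS _ hT'B hjT
  have hcj : (T'.erase j).card = T'.card - 1 := card_erase_of_mem hjT
  have hsmall : ∀ w ∈ ins A S, w ⊆ T'.erase j → w = ∅ := by
    intro w hw hws
    by_contra hne
    have h1 := hmin' w hw (nonempty_iff_ne_empty.mpr hne)
    have h2 := card_le_card hws
    omega
  have hTe : T'.erase j ∉ ins A S := by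
    intro hmem
    have h1 := hsmall _ hmem (Subset.refl _)
    rw [h1, card_empty] at hcj
    omega
  have hbad : (T', j) ∈ bad (ins A S) S :=
    mem_filter.mpr ⟨mem_product.mpr ⟨hT'B, hjS⟩, hjT, hTe⟩
  have hbs : bs (ins A S) (T', j) = ∅ := by
    refine pm_eq h0B (empty_subset _) fun w hw hws => ?_
    rw [hsmall w hw hws]
  have hPi : (T', j) ∈ Pi (ins A S) S i := by
    refine mem_filter.mpr ⟨hbad, ?_⟩
    rw [KK, hbs, sdiff_empty]
    exact mem_erase.mpr ⟨hij, hiT⟩
  have hi1 : ({i} : Finset α) ∉ ins A S := by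
    intro hmem
    have h1 := h3B _ hmem (singleton_nonempty i)
    rw [card_singleton] at h1
    omega
  have hj1 : ({j} : Finset α) ∉ ins A S := by
    intro hmem
    have h1 := h3B _ hmem (singleton_nonempty j)
    rw [card_singleton] at h1
    omega
  have hij1 : ({i, j} : Finset α) ∉ ins A S := by
    intro hmem
    have h1 := h3B _ hmem (insert_nonempty _ _)
    have h2 := card_le_two (a := i) (b := j)
    omega
  have hNi : (∅ : Finset α) ∈ Ni (ins A S) i := by
    refine mem_filter.mpr ⟨h0B, notMem_empty _, ?_⟩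
    exact hi1
  have hcc := cc_lt hB h0B hjS hij hPi hbs hi1 hj1 hij1
  have hcpos : (0:ℝ) < cc (ins A S) (ins A S) S i ∅ := by
    exact_mod_cast cc_pos hB hBS hE hNi
  have hstrict : (CC (ins A S) S T' : ℝ) / cc (ins A S) (ins A S) S i ∅ <
      (1 / 2) ^ ((KK (ins A S) (T', j)).card - 1) := by
    have h1 : ((2:ℝ) ^ ((KK (ins A S) (T', j)).card - 1)) * CC (ins A S) S T' <
        cc (ins A S) (ins A S) S i ∅ := by
      exact_mod_cast hcc
    rw [div_lt_iff₀ hcpos, one_div, inv_pow, ← div_eq_inv_mul, lt_div_iff₀ (by positivity)]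
    linarith
  have hlt : ((Ni (ins A S) i).card : ℝ) <
      ∑ p ∈ Pi (ins A S) S i, (1 / 2 : ℝ) ^ ((KK (ins A S) p).card - 1) := by
    refine lt_of_le_of_lt (card_Ni_le hB hBS hE hiS (hyp i hiS)) ?_
    refine lt_of_lt_of_le (sum_lt_sum (fun p hp => term_le hB hBS hE (mem_filter.mp hp).1
      (mem_filter.mp hp).2) ⟨(T', j), mem_filter.mpr ⟨hPi, ?_⟩, ?_⟩) ?_
    · rw [hbs]
      exact hNi
    · rw [hbs]
      exact hstrict
    · exact sum_le_sum_of_subset_of_nonneg (filter_subset _ _) fun _ _ _ => by positivity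
  have hsum : ∑ i ∈ S, ((Ni (ins A S) i).card : ℝ) < (bad (ins A S) S).card := by
    refine lt_of_lt_of_le (sum_lt_sum (fun i hi => card_Ni_le_pow hB hBS hE hi (hyp i hi))
      ⟨i, hiS, hlt⟩) ?_
    rw [sum_Pi hBS]
    refine (sum_le_sum fun p _ => card_mul_pow_le (KK (ins A S) p).card).trans ?_
    simp
  rw [sg_eq hBS]
  have hsum' : ∑ i ∈ S, ((Ni (ins A S) i).card : ℤ) < ((bad (ins A S) S).card : ℤ) := by
    exact_mod_cast hsum
  omega

end Pool.Agent.H28.DF
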