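import Pool.Agent.H28.DF.Defs

/-!
# MP_75f39d_co, DenseFamilies, row DFf: members of size one or two when no point is frequent

Hypothesis `hfr : ∀ x, 2 * fr A x ≤ |A|`, `∅ ∈ A`, `A` union-closed.
* `rem1`: `{a} ∈ A`, `T ∈ A` → `T.erase a ∈ A`. (`T ↦ insert a T` is injective from the members without `a` to the members with `a` of the form `insert a T`, `T ∈ A`, `a ∉ T`; `|A| - fr A a ≤ fr A a ≤ |A| - fr A a`
  (from `hfr`), so the image is the family of ALL members with `a` (`Finset.eq_of_subset_of_card_le` or `surj_on_of_inj_on_of_card_le`); for `a ∉ T` trivial.)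
* `rem2`: `{a, b} ∈ A`, `a ≠ b`, `T ∈ A` → `T \ {a, b} ∈ A`. Let `P = {T ∈ A : a, b ∈ T}`, `Q = {T ∈ A : a, b ∉ T}`. `fr A a + fr A b - |A| = |P| - |Q|` (inclusion-exclusion: `|A| = |{a ∈ T} ∪ {b ∈ T}| + |Q|`,
  `card_union_add_card_inter`), so `|P| ≤ |Q|`; `T ↦ T ∪ {a, b}` is injective from `Q` to `P`, so surjective: every `T ∈ P` is `T' ∪ {a, b}` with `T' ∈ Q`, i.e. `T \ {a, b} = T' ∈ A`. For general `T ∈ A`:
  `T ∪ {a, b} ∈ P` and `(T ∪ {a, b}) \ {a, b} = T \ {a, b}`.
* `sm A` = the union of the members with at most two elements. `sdiff_sm`: `T ∈ A` → `T \ sm A ∈ A`: more generally `T \ N.sup id ∈ A` for every subfamily `N` of members of size at most two (induction on `N`,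
  `sdiff_sdiff`/`sdiff_union_distrib`; `card_le_two`/`card_eq_one`, `card_eq_two`, `card_eq_zero`: `rem1`, `rem2`, trivial).
* `twins`: `{a, b} ∈ A`, `a ≠ b`, `{a} ∉ A`. Then `a ∈ W ↔ b ∈ W` for every `W ∈ A`, `W ⊆ sm A`. First `{b} ∉ A` (else `{a, b}.erase b = {a} ∈ A` by `rem1`). By symmetry suppose `a ∈ W`, `b ∉ W`. Let
  `N` = the members of size at most two that do not contain `a`; `W' = W \ N.sup id ∈ A` (general form of `sdiff_sm`). `a ∈ W'`. Every `x ∈ W'` is in some member `T` of size at most two with `a ∈ T`; `T = {a}` is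
  impossible, so `T = {a, c}` with `c = x` or `x = a`; if `c ≠ b`: `{a, b} \ {a, c} = {b} ∈ A` by `rem2`, contradiction; so `c = b`, and `x = b` is impossible because `b ∉ W`. So `W' = {a} ∈ A`, contradiction.
-/

set_option autoImplicit false

namespace Pool.Agent.H28.DF

open Finset Pool.Agent.H78.UC

variable {α : Type*} [DecidableEq α]

/-- The union of the members with at most two elements. -/
def sm (A : Finset (Finset α)) : Finset α := (A.filter fun T => T.card ≤ 2).sup id

theorem rem1 {A : Finset (Finset α)} (hA : UnC A) (hfr : ∀ x, 2 * fr A x ≤ A.card) {a : α} (ha : {a} ∈ A) {T : Finset α} (hT : T ∈ A) :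
    T.erase a ∈ A := by
  have h1 : (A.filter fun T => a ∈ T).card + (A.filter fun T => ¬ a ∈ T).card = A.card :=
    card_filter_add_card_filter_not (s := A) (fun T => a ∈ T)
  have h2 : (A.filter fun T => a ∈ T).card ≤ (A.filter fun T => ¬ a ∈ T).card := by
    have h3 := hfr a
    unfold fr at h3
    omega
  have hinj : Set.InjOn (fun T : Finset α => insert a T) ((A.filter fun T => ¬ a ∈ T) : Finset (Finset α)) := by
    intro T hT T' hT' h
    rw [mem_coe, mem_filter] at hT hT'
    have h3 : (insert a T).erase a = (insert a T').erase a := congrArg (fun S => S.erase a) h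
    rw [erase_insert hT.2, erase_insert hT'.2] at h3
    exact h3
  have hsub : (A.filter fun T => ¬ a ∈ T).image (fun T => insert a T) ⊆ A.filter fun T => a ∈ T := by
    intro S hS
    obtain ⟨T, hT, rfl⟩ := mem_image.1 hS
    rw [mem_filter] at hT ⊢
    refine ⟨?_, mem_insert_self _ _⟩
    rw [insert_eq]
    exact hA _ ha _ hT.1
  have heq := eq_of_subset_of_card_le hsub (by rw [card_image_of_injOn hinj]; exact h2)
  by_cases haT : a ∈ T
  · have h3 : T ∈ A.filter fun T => a ∈ T := mem_filter.2 ⟨hT, haT⟩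
    rw [← heq] at h3
    obtain ⟨T', hT', rfl⟩ := mem_image.1 h3
    rw [mem_filter] at hT'
    rw [erase_insert hT'.2]
    exact hT'.1
  · rw [erase_eq_of_notMem haT]
    exact hT

theorem rem2 {A : Finset (Finset α)} (hA : UnC A) (hfr : ∀ x, 2 * fr A x ≤ A.card) {a b : α} (hab : a ≠ b) (h : ({a, b} : Finset α) ∈ A)
    {T : Finset α} (hT : T ∈ A) : T \ {a, b} ∈ A := by
  have h1 : (A.filter fun T => a ∈ T ∨ b ∈ T).card + (A.filter fun T => ¬ (a ∈ T ∨ b ∈ T)).card = A.card :=
    card_filter_add_card_filter_not (s := A) (fun T => a ∈ T ∨ b ∈ T)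
  have h2 : (A.filter fun T => a ∈ T ∨ b ∈ T).card + (A.filter fun T => a ∈ T ∧ b ∈ T).card = fr A a + fr A b := by
    rw [filter_or, filter_and]
    exact card_union_add_card_inter _ _
  have h3 : (A.filter fun T => a ∈ T ∧ b ∈ T).card ≤ (A.filter fun T => ¬ (a ∈ T ∨ b ∈ T)).card := by
    have h4 := hfr a
    have h5 := hfr b
    omega
  have hdis : ∀ S : Finset α, ¬ (a ∈ S ∨ b ∈ S) → ({a, b} ∪ S) \ {a, b} = S := by
    intro S hS
    ext x
    rw [mem_sdiff, mem_union]
    constructor
    · rintro ⟨h4 | h4, h5⟩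
      · exact absurd h4 h5
      · exact h4
    · intro h4
      refine ⟨Or.inr h4, fun h5 => hS ?_⟩
      rw [mem_insert, mem_singleton] at h5
      rcases h5 with rfl | rfl
      · exact Or.inl h4
      · exact Or.inr h4
  have hinj : Set.InjOn (fun S : Finset α => {a, b} ∪ S) ((A.filter fun T => ¬ (a ∈ T ∨ b ∈ T)) : Finset (Finset α)) := by
    intro S hS S' hS' h4
    rw [mem_coe, mem_filter] at hS hS'
    have h5 : ({a, b} ∪ S) \ {a, b} = ({a, b} ∪ S') \ {a, b} := congrArg (fun R => R \ {a, b}) h4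
    rw [hdis S hS.2, hdis S' hS'.2] at h5
    exact h5
  have hmem : ∀ S ∈ A, {a, b} ∪ S ∈ A.filter fun T => a ∈ T ∧ b ∈ T := by
    intro S hS
    rw [mem_filter]
    refine ⟨hA _ h _ hS, mem_union_left _ (mem_insert_self _ _), mem_union_left _ ?_⟩
    rw [mem_insert, mem_singleton]
    exact Or.inr rfl
  have hsub : (A.filter fun T => ¬ (a ∈ T ∨ b ∈ T)).image (fun S => {a, b} ∪ S) ⊆ A.filter fun T => a ∈ T ∧ b ∈ T := by
    intro R hR
    obtain ⟨S, hS, rfl⟩ := mem_image.1 hR
    exact hmem S (mem_filter.1 hS).1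
  have heq := eq_of_subset_of_card_le hsub (by rw [card_image_of_injOn hinj]; exact h3)
  have h4 := hmem T hT
  rw [← heq] at h4
  obtain ⟨S, hS, hST⟩ := mem_image.1 h4
  rw [mem_filter] at hS
  have h5 : T \ {a, b} = S := by
    rw [← hdis S hS.2]
    have h6 : {a, b} ∪ S = {a, b} ∪ T := hST
    rw [h6, union_sdiff_left]
  rw [h5]
  exact hS.1

theorem sdiff_sup {A : Finset (Finset α)} (hA : UnC A) (hfr : ∀ x, 2 * fr A x ≤ A.card) (N : Finset (Finset α))
    (hN : ∀ T ∈ N, T ∈ A ∧ T.card ≤ 2) {T : Finset α} (hT : T ∈ A) : T \ N.sup id ∈ A := by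
  induction N using Finset.induction_on generalizing T with
  | empty =>
    rw [sup_empty, bot_eq_empty, sdiff_empty]
    exact hT
  | insert S N hS ih =>
    have h0 : T \ (insert S N).sup id = (T \ S) \ N.sup id := by
      rw [sup_insert, id_eq]
      exact _root_.sdiff_sdiff_left.symm
    rw [h0]
    have h1 := hN S (mem_insert_self _ _)
    refine ih (fun R hR => hN R (mem_insert_of_mem hR)) ?_
    have h2 : S.card = 0 ∨ S.card = 1 ∨ S.card = 2 := by omega
    rcases h2 with h2 | h2 | h2
    · rw [card_eq_zero.1 h2, sdiff_empty]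
      exact hT
    · obtain ⟨a, rfl⟩ := card_eq_one.1 h2
      rw [sdiff_singleton_eq_erase]
      exact rem1 hA hfr h1.1 hT
    · obtain ⟨a, b, hab, rfl⟩ := card_eq_two.1 h2
      exact rem2 hA hfr hab h1.1 hT

theorem sdiff_sm {A : Finset (Finset α)} (hA : UnC A) (hfr : ∀ x, 2 * fr A x ≤ A.card) {T : Finset α} (hT : T ∈ A) : T \ sm A ∈ A := by
  refine sdiff_sup hA hfr _ (fun S hS => ?_) hT
  exact mem_filter.1 hS

theorem twins {A : Finset (Finset α)} (hA : UnC A) (hfr : ∀ x, 2 * fr A x ≤ A.card) {a b : α} (hab : a ≠ b) (h : ({a, b} : Finset α) ∈ A)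
    (h1 : {a} ∉ A) {W : Finset α} (hW : W ∈ A) (hWM : W ⊆ sm A) : a ∈ W ↔ b ∈ W := by
  have half : ∀ a b : α, a ≠ b → ({a, b} : Finset α) ∈ A → {a} ∉ A → {b} ∉ A → a ∈ W → b ∈ W := by
    intro a b hab h h1 h2 haW
    by_contra hbW
    have h3 := sdiff_sup hA hfr (A.filter fun T => T.card ≤ 2 ∧ a ∉ T) (fun T hT => by
      rw [mem_filter] at hT
      exact ⟨hT.1, hT.2.1⟩) hW
    have hnot : a ∉ (A.filter fun T => T.card ≤ 2 ∧ a ∉ T).sup id := by
      rw [mem_sup]
      rintro ⟨T, hT, haT⟩
      exact (mem_filter.1 hT).2.2 haT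
    have h4 : W \ (A.filter fun T => T.card ≤ 2 ∧ a ∉ T).sup id = {a} := by
      ext x
      rw [mem_sdiff, mem_singleton]
      constructor
      · rintro ⟨hxW, hx⟩
        by_contra hxa
        have h5 := hWM hxW
        unfold sm at h5
        rw [mem_sup] at h5
        obtain ⟨T, hT, hxT⟩ := h5
        rw [id_eq] at hxT
        rw [mem_filter] at hT
        have haT : a ∈ T := by
          by_contra haT
          apply hx
          rw [mem_sup]
          exact ⟨T, mem_filter.2 ⟨hT.1, hT.2, haT⟩, hxT⟩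
        have hTe : ({a, x} : Finset α) = T := by
          refine eq_of_subset_of_card_le ?_ ?_
          · intro y hy
            rw [mem_insert, mem_singleton] at hy
            rcases hy with rfl | rfl
            · exact haT
            · exact hxT
          · rw [card_pair (Ne.symm hxa)]
            exact hT.2
        have h6 := rem2 hA hfr (Ne.symm hxa) (by rw [hTe]; exact hT.1) h
        apply h2
        have h7 : ({a, b} : Finset α) \ {a, x} = {b} := by
          ext y
          rw [mem_sdiff, mem_insert, mem_singleton, mem_insert, mem_singleton]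
          constructor
          · rintro ⟨h8 | h8, h9⟩
            · exact absurd (Or.inl h8) h9
            · exact h8
          · rintro rfl
            refine ⟨Or.inr rfl, ?_⟩
            rintro (h8 | h8)
            · exact hab h8.symm
            · rw [h8] at hbW
              exact hbW hxW
        rw [h7] at h6
        exact h6
      · rintro rfl
        exact ⟨haW, hnot⟩
    rw [h4] at h3
    exact h1 h3
  have h2 : {b} ∉ A := by
    intro h2
    apply h1
    have h3 := rem1 hA hfr h2 h
    have h4 : ({a, b} : Finset α).erase b = {a} := by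
      ext y
      rw [mem_erase, mem_insert, mem_singleton, mem_singleton]
      constructor
      · rintro ⟨h5, h6 | h6⟩
        · exact h6
        · exact absurd h6 h5
      · rintro rfl
        exact ⟨hab, Or.inl rfl⟩
    rw [h4] at h3
    exact h3
  exact ⟨half a b hab h h1 h2, half b a hab.symm (by rw [pair_comm]; exact h) h2 h1⟩

end Pool.Agent.H28.DF
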