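import Pool.Agent.H28.DF.Defs

/-!
# MP_75f39d_co, DenseFamilies, row DFg: splitting off a set of points

`M`, `R` disjoint, all members of `A` inside `M ∪ R`, `T \ M ∈ A` for `T ∈ A`. For `W ⊆ M` let `rw A R W` be the family of the members `T ⊆ R` with `T ∪ W ∈ A`.
* `rw_sub`, `rw_unC`: `rw A R W ⊆ A`; union-closed (`(T ∪ W) ∪ (T' ∪ W) = (T ∪ T') ∪ W`).
* `dec`: for every predicate `P` on finsets: `#{T ∈ A : P (T \ M)} = ∑ W ∈ M.powerset, #{T ∈ rw A R W : P T}`: the map `T ↦ T ∩ M` sorts the members (`card_eq_sum_card_fiberwise`), and `T ↦ T \ M` is a bijection from the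
  members with `T ∩ M = W` to `rw A R W` (inverse `T ↦ T ∪ W`; `(T \ M) ∪ W = T`; for `T ⊆ R`, `W ⊆ M`, `M`, `R` disjoint: `(T ∪ W) \ M = T`, `(T ∪ W) ∩ M = W`).
* `dec_card`: `|A| = ∑ W ∈ M.powerset, |rw A R W|` (`P = True`). `dec_sg`: `sg A R = ∑ W ∈ M.powerset, sg (rw A R W) R` (`P T = (x ∈ T)`, `x ∈ R`, so `x ∉ M`).
* `ins_rw`: `ins (rw A R W) R = rw A R W`. `empty_mem_rw`: if `∅ ∈ A`: `∅ ∈ rw A R W ↔ W ∈ A`.
-/

set_option autoImplicit false

namespace Pool.Agent.H28.DF

open Finset Pool.Agent.H78.UC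

variable {α : Type*} [DecidableEq α]

/-- The members `T ⊆ R` with `T ∪ W ∈ A`. -/
def rw (A : Finset (Finset α)) (R W : Finset α) : Finset (Finset α) := A.filter fun T => T ⊆ R ∧ T ∪ W ∈ A

theorem rw_sub {A : Finset (Finset α)} {R W : Finset α} : rw A R W ⊆ A := by
  unfold rw
  exact filter_subset _ _

theorem rw_unC {A : Finset (Finset α)} (hA : UnC A) {R W : Finset α} : UnC (rw A R W) := by
  intro s hs t ht
  unfold rw at *
  rw [mem_filter] at *
  refine ⟨hA s hs.1 t ht.1, union_subset hs.2.1 ht.2.1, ?_⟩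
  have h := hA _ hs.2.2 _ ht.2.2
  have h2 : s ∪ W ∪ (t ∪ W) = s ∪ t ∪ W := by
    ext x
    simp only [mem_union]
    tauto
  rwa [h2] at h

theorem ins_rw {A : Finset (Finset α)} {R W : Finset α} : ins (rw A R W) R = rw A R W := by
  unfold ins
  apply filter_true_of_mem
  intro T hT
  unfold rw at hT
  exact (mem_filter.1 hT).2.1

theorem empty_mem_rw {A : Finset (Finset α)} (h0 : ∅ ∈ A) {R W : Finset α} : ∅ ∈ rw A R W ↔ W ∈ A := by
  unfold rw
  rw [mem_filter, empty_union]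
  constructor
  · rintro ⟨_, _, h⟩
    exact h
  · intro h
    exact ⟨h0, empty_subset R, h⟩

theorem dec {A : Finset (Finset α)} {M R : Finset α} (hd : Disjoint M R) (hU : ∀ T ∈ A, T ⊆ M ∪ R) (hM : ∀ T ∈ A, T \ M ∈ A)
    (P : Finset α → Prop) [DecidablePred P] :
    (A.filter fun T => P (T \ M)).card = ∑ W ∈ M.powerset, ((rw A R W).filter P).card := by
  have h1 : ∀ T ∈ A.filter (fun T => P (T \ M)), T ∩ M ∈ M.powerset := by
    intro T _
    exact mem_powerset.2 inter_subset_right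
  rw [card_eq_sum_card_fiberwise (f := fun T => T ∩ M) (t := M.powerset) h1]
  refine sum_congr rfl fun W hW => ?_
  have hWM : W ⊆ M := mem_powerset.1 hW
  have e1 : ∀ T : Finset α, T ⊆ R → (T ∪ W) \ M = T ∧ (T ∪ W) ∩ M = W := by
    intro T hT
    have hTM : ∀ x ∈ T, x ∉ M := fun x hx hxM => disjoint_left.1 hd hxM (hT hx)
    constructor
    · ext x
      rw [mem_sdiff, mem_union]
      constructor
      · rintro ⟨h | h, h2⟩
        · exact h
        · exact absurd (hWM h) h2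
      · intro h
        exact ⟨Or.inl h, hTM x h⟩
    · ext x
      rw [mem_inter, mem_union]
      constructor
      · rintro ⟨h | h, h2⟩
        · exact absurd h2 (hTM x h)
        · exact h
      · intro h
        exact ⟨Or.inr h, hWM h⟩
  refine card_nbij' (fun T => T \ M) (fun T => T ∪ W) ?_ ?_ ?_ ?_
  · intro T hT
    simp only [coe_filter, mem_filter, Set.mem_ofPred_eq] at hT ⊢
    obtain ⟨⟨hTA, hP⟩, hTW⟩ := hT
    unfold rw
    refine ⟨mem_filter.2 ⟨hM T hTA, ?_, ?_⟩, hP⟩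
    · intro x hx
      rw [mem_sdiff] at hx
      rcases mem_union.1 (hU T hTA hx.1) with h | h
      · exact absurd h hx.2
      · exact h
    · have h3 : T \ M ∪ W = T := by
        rw [← hTW]
        exact sdiff_union_inter T M
      rwa [h3]
  · intro T hT
    simp only [coe_filter, mem_filter, Set.mem_ofPred_eq] at hT ⊢
    obtain ⟨hT1, hP⟩ := hT
    unfold rw at hT1
    rw [mem_filter] at hT1
    obtain ⟨e2, e3⟩ := e1 T hT1.2.1
    refine ⟨⟨hT1.2.2, ?_⟩, e3⟩
    rwa [e2]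
  · intro T hT
    simp only [coe_filter, mem_filter, Set.mem_ofPred_eq] at hT
    show T \ M ∪ W = T
    rw [← hT.2]
    exact sdiff_union_inter T M
  · intro T hT
    simp only [coe_filter, Set.mem_ofPred_eq] at hT
    have hT1 := hT.1
    unfold rw at hT1
    rw [mem_filter] at hT1
    exact (e1 T hT1.2.1).1

theorem dec_card {A : Finset (Finset α)} {M R : Finset α} (hd : Disjoint M R) (hU : ∀ T ∈ A, T ⊆ M ∪ R) (hM : ∀ T ∈ A, T \ M ∈ A) :
    A.card = ∑ W ∈ M.powerset, (rw A R W).card := by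
  have h := dec hd hU hM (fun _ => True)
  simpa using h

theorem dec_sg {A : Finset (Finset α)} {M R : Finset α} (hd : Disjoint M R) (hU : ∀ T ∈ A, T ⊆ M ∪ R) (hM : ∀ T ∈ A, T \ M ∈ A) :
    sg A R = ∑ W ∈ M.powerset, sg (rw A R W) R := by
  unfold sg
  rw [sum_comm]
  refine sum_congr rfl fun x hx => ?_
  have hxM : x ∉ M := fun h => disjoint_left.1 hd h hx
  have h1 : fr A x = ∑ W ∈ M.powerset, fr (rw A R W) x := by
    have h := dec hd hU hM (fun T => x ∈ T)
    unfold fr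
    rw [← h]
    congr 1
    apply filter_congr
    intro T _
    rw [mem_sdiff]
    exact ⟨fun h => ⟨h, hxM⟩, fun h => h.1⟩
  rw [h1, dec_card hd hU hM, sum_sub_distrib]
  push_cast
  rw [mul_sum]

end Pool.Agent.H28.DF
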