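import Pool.Agent.H28.DF.Cc
import Pool.Agent.H28.DF.Ce
import Pool.Agent.H28.DF.Cf
import Pool.Agent.H28.DF.Cg

/-!
# MP_75f39d_co, DenseFamilies: the strict theorem for separating families with the empty set
-/

set_option autoImplicit false

namespace Pool.Agent.H28.DF

open Finset Pool.Agent.H78.UC

variable {α : Type*} [DecidableEq α]

theorem sg_nonpos {A : Finset (Finset α)} (hfr : ∀ x, 2 * fr A x ≤ A.card) (V : Finset α) : sg A V ≤ 0 := by
  refine sum_nonpos fun x _ => ?_
  have := hfr x
  omega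

theorem sm_sub {A : Finset (Finset α)} : sm A ⊆ A.sup id := by
  refine Finset.sup_mono (filter_subset _ _)

/-- No core is disjoint from the small members. -/
theorem no_core {A : Finset (Finset α)} (hA : UnC A) (h0 : ∅ ∈ A) (hfr : ∀ x, 2 * fr A x ≤ A.card) {R : Finset α}
    (hd : Disjoint (sm A) R) : ∀ S ⊆ R, ¬ IsCore A S := by
  intro S hS hc
  have h := core_strict hA h0 hc (fun T hT hTS hne => by
    by_contra hlt
    rw [not_le] at hlt
    have hTM : T ⊆ sm A := by
      have : T ∈ A.filter fun T => T.card ≤ 2 := by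
        rw [mem_filter]; exact ⟨hT, by omega⟩
      exact Finset.le_sup (f := id) this
    obtain ⟨x, hx⟩ := hne
    exact (Finset.disjoint_left.mp hd (hTM hx)) (hS (hTS hx)))
  have h2 := sg_nonpos hfr S
  omega

/-- The top of a union-closed family with the empty set. -/
theorem top_mem {A : Finset (Finset α)} (hA : UnC A) (h0 : ∅ ∈ A) : A.sup id ∈ A := by
  have : ∀ N : Finset (Finset α), N ⊆ A → N.sup id ∈ A := by
    intro N
    induction N using Finset.induction_on with
    | empty => intro _; simpa using h0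
    | insert T N hT ih =>
      intro h
      rw [Finset.sup_insert]
      exact hA _ (h (mem_insert_self _ _)) _ (ih fun x hx => h (mem_insert_of_mem hx))
  exact this A (Subset.refl _)

/-- The number of points of `R` if the members inside `R` separate them. -/
theorem sep_card {A : Finset (Finset α)} {R : Finset α} (h0 : ∅ ∈ A) (hR : R ∈ A) (hne : R.Nonempty)
    (hsep : ∀ x ∈ R, ∀ y ∈ R, x ≠ y → ∃ T ∈ ins A R, ¬ (x ∈ T ↔ y ∈ T)) : R.card ≤ 2 ^ ((ins A R).card - 2) := by
  have h1 : (((ins A R).erase ∅).erase R).card = (ins A R).card - 2 := by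
    have hR' : R ∈ (ins A R).erase ∅ := by
      rw [mem_erase]
      exact ⟨hne.ne_empty, by rw [ins, mem_filter]; exact ⟨hR, Subset.refl _⟩⟩
    have h0' : ∅ ∈ ins A R := by
      rw [ins, mem_filter]; exact ⟨h0, empty_subset _⟩
    rw [card_erase_of_mem hR', card_erase_of_mem h0']
    omega
  rw [← h1, ← card_powerset]
  refine card_le_card_of_injOn (fun x => (((ins A R).erase ∅).erase R).filter fun T => x ∈ T) ?_ ?_
  · intro x _
    rw [mem_coe, mem_powerset]
    exact filter_subset _ _
  · intro x hx y hy hxy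
    by_contra hne'
    obtain ⟨T, hT, hT2⟩ := hsep x (mem_coe.mp hx) y (mem_coe.mp hy) hne'
    apply hT2
    have hTne : T ≠ ∅ := by
      rintro rfl
      simp at hT2
    have hTR : T ≠ R := by
      rintro rfl
      exact hT2 ⟨fun _ => mem_coe.mp hy, fun _ => mem_coe.mp hx⟩
    have hTm : T ∈ ((ins A R).erase ∅).erase R := mem_erase.mpr ⟨hTR, mem_erase.mpr ⟨hTne, hT⟩⟩
    have h := Finset.ext_iff.mp hxy T
    simp only [mem_filter, hTm, true_and] at h
    exact h

/-- The sum of the coreless inequalities. -/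
theorem big_sum {A : Finset (Finset α)} (hA : UnC A) (h0 : ∅ ∈ A) (hfr : ∀ x, 2 * fr A x ≤ A.card) {R : Finset α}
    (hd : Disjoint (sm A) R) (hU : ∀ T ∈ A, T ⊆ sm A ∪ R) :
    4 * (A.card : ℤ) - (4 + (R.card : ℤ)) * (((sm A).powerset.filter fun W => W ∈ A).card : ℤ)
      - 2 ^ (sm A).card * ((ls R.card : ℤ) - (R.card : ℤ)) ≤ 0 := by
  have hM : ∀ T ∈ A, T \ sm A ∈ A := fun T hT => sdiff_sm hA hfr hT
  have hnc := no_core hA h0 hfr hd
  have h1 := dec_card hd hU hM
  have h2 := dec_sg hd hU hM
  have h3 := sg_nonpos hfr R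
  have h4 : ∀ W ∈ (sm A).powerset,
      4 * (((rw A R W).card : ℤ) - (if W ∈ A then 1 else 0)) - (ls R.card : ℤ) + (R.card : ℤ) * (1 - (if W ∈ A then 1 else 0))
        ≤ sg (rw A R W) R := by
    intro W _
    have h := (coreless h0 (rw_unC (R := R) (W := W) hA) rw_sub R hnc).2.2
    rw [ins_rw] at h
    simpa only [empty_mem_rw h0] using h
  have h5 := sum_le_sum h4
  rw [← h2] at h5
  have h6 : ∑ W ∈ (sm A).powerset, (if W ∈ A then (1 : ℤ) else 0) =
      (((sm A).powerset.filter fun W => W ∈ A).card : ℤ) := by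
    rw [card_filter]
    push_cast
    rfl
  have h7 : ((sm A).powerset.card : ℤ) = 2 ^ (sm A).card := by
    rw [card_powerset]; push_cast; rfl
  have h8 : ∑ W ∈ (sm A).powerset, (4 * (((rw A R W).card : ℤ) - (if W ∈ A then 1 else 0)) - (ls R.card : ℤ)
      + (R.card : ℤ) * (1 - (if W ∈ A then 1 else 0))) =
      4 * ((A.card : ℤ) - (((sm A).powerset.filter fun W => W ∈ A).card : ℤ)) - 2 ^ (sm A).card * (ls R.card : ℤ)
        + (R.card : ℤ) * (2 ^ (sm A).card - (((sm A).powerset.filter fun W => W ∈ A).card : ℤ)) := by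
    rw [sum_add_distrib, sum_sub_distrib, ← mul_sum, sum_sub_distrib, ← mul_sum, sum_sub_distrib, h6, h1]
    simp only [sum_const, nsmul_eq_mul, h7]
    push_cast
    ring
  rw [h8] at h5
  linarith

/-- At most half of the subsets of `M` do not split `a` and `b`. -/
theorem half_card {M : Finset α} {a b : α} (ha : a ∈ M) (hab : a ≠ b) :
    2 * (M.powerset.filter fun W => a ∈ W ↔ b ∈ W).card ≤ 2 ^ M.card := by
  have h : (M.powerset.filter fun W => a ∈ W ↔ b ∈ W).card ≤ ((M.erase a).powerset).card := by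
    refine card_le_card_of_injOn (fun W => W.erase a) ?_ ?_
    · intro W hW
      rw [mem_coe, mem_filter, mem_powerset] at hW
      rw [mem_coe, mem_powerset]
      exact erase_subset_erase _ hW.1
    · intro W hW W' hW' h
      rw [mem_coe, mem_filter, mem_powerset] at hW hW'
      have hb : b ∈ W ↔ b ∈ W' := by
        have := Finset.ext_iff.mp h b
        simpa [mem_erase, Ne.symm hab] using this
      ext x
      by_cases hx : x = a
      · subst hx
        rw [hW.2, hW'.2, hb]
      · have := Finset.ext_iff.mp h x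
        simpa [mem_erase, hx] using this
  rw [card_powerset, card_erase_of_mem ha] at h
  have hpos : 0 < M.card := card_pos.mpr ⟨a, ha⟩
  have h2 : 2 ^ M.card = 2 * 2 ^ (M.card - 1) := by
    rw [← pow_succ']
    congr 1
    omega
  omega

theorem strict0 {A : Finset (Finset α)} (hA : UnC A) (h0 : ∅ ∈ A)
    (hsep : ∀ x ∈ A.sup id, ∀ y ∈ A.sup id, x ≠ y → ∃ T ∈ A, ¬ (x ∈ T ↔ y ∈ T))
    (hpow : A ≠ (A.sup id).powerset) (hd : 2 ^ (A.sup id).card ≤ 6 * A.card) :
    ∃ x ∈ A.sup id, A.card < 2 * fr A x := by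
  by_contra hcon
  have hfr : ∀ x, 2 * fr A x ≤ A.card := by
    intro x
    by_cases hx : x ∈ A.sup id
    · by_contra hlt
      exact hcon ⟨x, hx, by omega⟩
    · have : fr A x = 0 := by
        rw [fr, card_eq_zero, filter_eq_empty_iff]
        intro T hT hxT
        exact hx ((Finset.le_sup (f := id) hT) hxT)
      omega
  obtain ⟨M, hMdef⟩ : ∃ M, M = sm A := ⟨_, rfl⟩
  obtain ⟨U, hUdef⟩ : ∃ U, U = A.sup id := ⟨_, rfl⟩
  obtain ⟨R, hRdef⟩ : ∃ R, R = U \ M := ⟨_, rfl⟩
  have hMU : M ⊆ U := by rw [hMdef, hUdef]; exact sm_sub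
  have hTU : ∀ T ∈ A, T ⊆ U := fun T hT => by rw [hUdef]; exact Finset.le_sup (f := id) hT
  have hdis : Disjoint (sm A) R := by rw [hRdef, ← hMdef]; exact disjoint_sdiff
  have hMR : ∀ T ∈ A, T ⊆ sm A ∪ R := by
    intro T hT
    rw [hRdef, ← hMdef, union_sdiff_of_subset hMU]
    exact hTU T hT
  have hcard : U.card = M.card + R.card := by
    rw [hRdef, card_sdiff_of_subset hMU]
    have := card_le_card hMU
    omega
  have hUA : U ∈ A := by rw [hUdef]; exact top_mem hA h0
  have hRA : R ∈ A := by rw [hRdef, hMdef]; exact sdiff_sm hA hfr hUA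
  have hsd : ∀ T ∈ A, T \ M ∈ ins A R := by
    intro T hT
    rw [ins, mem_filter]
    refine ⟨by rw [hMdef]; exact sdiff_sm hA hfr hT, ?_⟩
    rw [hRdef]
    exact sdiff_subset_sdiff (hTU T hT) (Subset.refl _)
  have hbig := big_sum hA h0 hfr hdis hMR
  rw [← hMdef] at hbig
  have hnc := no_core hA h0 hfr hdis
  have hco := coreless h0 hA (Subset.refl A) R hnc
  have haa := hco.1
  -- separation inside `R`
  have hsepR : ∀ x ∈ R, ∀ y ∈ R, x ≠ y → ∃ T ∈ ins A R, ¬ (x ∈ T ↔ y ∈ T) := by
    intro x hx y hy hxy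
    have hxU : x ∈ U \ M := hRdef ▸ hx
    have hyU : y ∈ U \ M := hRdef ▸ hy
    rw [mem_sdiff] at hxU hyU
    obtain ⟨T, hT, h⟩ := hsep x (hUdef ▸ hxU.1) y (hUdef ▸ hyU.1) hxy
    refine ⟨T \ M, hsd T hT, ?_⟩
    rw [mem_sdiff, mem_sdiff]
    simpa [hxU.2, hyU.2] using h
  rw [← hUdef] at hd hpow
  rw [hcard, pow_add] at hd
  -- few members inside `R`
  have hR2 : R.Nonempty → 2 ≤ (ins A R).card := by
    intro hne
    have : ({∅, R} : Finset (Finset α)) ⊆ ins A R := by
      intro T hT
      rw [mem_insert, mem_singleton] at hT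
      rw [ins, mem_filter]
      rcases hT with rfl | rfl
      · exact ⟨h0, empty_subset _⟩
      · exact ⟨hRA, Subset.refl _⟩
    have h := card_le_card this
    rwa [card_pair hne.ne_empty.symm] at h
  have hn3 : R.Nonempty → 3 ≤ R.card := by
    intro hne
    have h1 := hR2 hne
    have h2 := card_pos.mpr hne
    by_contra hlt
    have h3 : R.card = 1 ∨ R.card = 2 := by omega
    rcases h3 with h3 | h3
    · rw [h3] at haa; simp [aa, qq] at haa; omega
    · rw [h3] at haa; simp [aa, qq] at haa; omega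
  obtain ⟨F, hF⟩ : ∃ F, F = (M.powerset.filter fun W => W ∈ A).card := ⟨_, rfl⟩
  rw [← hF] at hbig
  have hq : (0 : ℤ) < 2 ^ M.card := by positivity
  by_cases hall : ∀ W ⊆ M, W ∈ A
  · have hF2 : F = 2 ^ M.card := by
      rw [hF, ← card_powerset]
      congr 1
      refine filter_true_of_mem fun W hW => hall W (mem_powerset.mp hW)
    have hrw : ∀ W ∈ M.powerset, (rw A R W).card = (ins A R).card := by
      intro W hW
      congr 1
      rw [rw, ins]
      refine filter_congr fun T hT => ?_
      exact ⟨fun h => h.1, fun h => ⟨h, hA _ hT _ (hall W (mem_powerset.mp hW))⟩⟩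
    have hAc : A.card = 2 ^ M.card * (ins A R).card := by
      rw [dec_card hdis hMR (fun T hT => sdiff_sm hA hfr hT), ← hMdef, sum_congr rfl hrw, sum_const, card_powerset,
        smul_eq_mul]
    rcases R.eq_empty_or_nonempty with hRe | hRne
    · -- `A` is a power set
      apply hpow
      have hMU' : M = U := by
        apply Subset.antisymm hMU
        rw [← sdiff_eq_empty_iff_subset, ← hRdef, hRe]
      ext T
      rw [mem_powerset]
      exact ⟨fun h => hTU T h, fun h => hall T (hMU' ▸ h)⟩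
    · have h3 := hn3 hRne
      have h2 := hR2 hRne
      have hsc := sep_card h0 hRA hRne hsepR
      obtain ⟨r, hr⟩ : ∃ r, r = (ins A R).card := ⟨_, rfl⟩
      obtain ⟨n, hn⟩ : ∃ n, n = R.card := ⟨_, rfl⟩
      rw [← hr] at hsc hAc h2 haa
      rw [← hn] at hsc h3 haa hbig hd
      -- `4 (r - 1) ≤ ls n` and `2 ^ n ≤ 6 r`
      have hA1 : (A.card : ℤ) = 2 ^ M.card * (r : ℤ) := by rw [hAc]; push_cast; ring
      have hF3 : (F : ℤ) = 2 ^ M.card := by rw [hF2]; push_cast; ring
      rw [hA1, hF3] at hbig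
      have e1 : 4 * ((r : ℤ) - 1) ≤ (ls n : ℤ) := by
        have : 2 ^ M.card * (4 * ((r : ℤ) - 1) - (ls n : ℤ)) ≤ 0 := by linarith
        have := nonpos_of_mul_nonpos_right this hq
        linarith
      have e2 : 2 ^ n ≤ 6 * r := by
        rw [hAc] at hd
        have : 2 ^ M.card * 2 ^ n ≤ 2 ^ M.card * (6 * r) := by linarith
        exact Nat.le_of_mul_le_mul_left this (by positivity)
      have h5 : n = 3 ∨ n = 4 ∨ 5 ≤ n := by omega
      rcases h5 with h5 | h5 | h5
      · subst h5
        simp [aa, qq] at haa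
        have : r = 2 := by omega
        subst this
        norm_num at hsc
      · subst h5
        simp [ls, qq, aa] at e1
        have : r = 3 := by omega
        subst this
        norm_num at hsc
      · have := ls_le h5
        omega
  · -- a pair of twins
    push Not at hall
    obtain ⟨W0, hW0M, hW0A⟩ := hall
    have hsing : ∃ a ∈ M, {a} ∉ A := by
      by_contra hs
      push Not at hs
      apply hW0A
      have : ∀ N : Finset α, N ⊆ M → N ∈ A := by
        intro N
        induction N using Finset.induction_on with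
        | empty => intro _; exact h0
        | insert a N ha ih =>
          intro h
          rw [insert_eq]
          exact hA _ (hs a (h (mem_insert_self _ _))) _ (ih fun x hx => h (mem_insert_of_mem hx))
      exact this W0 hW0M
    obtain ⟨a, haM, haA⟩ := hsing
    have hpair : ∃ b, a ≠ b ∧ ({a, b} : Finset α) ∈ A := by
      rw [hMdef, sm, Finset.mem_sup] at haM
      obtain ⟨T, hT, haT⟩ := haM
      rw [mem_filter] at hT
      rw [id] at haT
      have hc1 : T.card ≠ 1 := by
        intro h1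
        rw [card_eq_one] at h1
        obtain ⟨c, hc⟩ := h1
        rw [hc, mem_singleton] at haT
        subst haT
        exact haA (hc ▸ hT.1)
      have hc0 : T.card ≠ 0 := by
        rw [Ne, card_eq_zero]
        rintro rfl
        simp at haT
      have hc2 : T.card = 2 := by omega
      rw [card_eq_two] at hc2
      obtain ⟨c, d, hcd, hTcd⟩ := hc2
      rw [hTcd, mem_insert, mem_singleton] at haT
      rcases haT with rfl | rfl
      · exact ⟨d, hcd, hTcd ▸ hT.1⟩
      · refine ⟨c, hcd.symm, ?_⟩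
        rw [pair_comm]
        exact hTcd ▸ hT.1
    obtain ⟨b, hab, habA⟩ := hpair
    have htw : ∀ W ∈ A, W ⊆ M → (a ∈ W ↔ b ∈ W) := by
      intro W hW hWM
      exact twins hA hfr hab habA haA hW (hMdef ▸ hWM)
    have hbM : b ∈ M := by
      rw [hMdef, sm, Finset.mem_sup]
      exact ⟨{a, b}, by rw [mem_filter]; exact ⟨habA, card_le_two⟩, by simp⟩
    have hF2 : 2 * F ≤ 2 ^ M.card := by
      refine le_trans ?_ (half_card haM hab)
      rw [hF]
      refine Nat.mul_le_mul_left 2 (card_le_card ?_)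
      intro W hW
      rw [mem_filter, mem_powerset] at hW ⊢
      exact ⟨hW.1, htw W hW.2 hW.1⟩
    rcases R.eq_empty_or_nonempty with hRe | hRne
    · have hMU' : M = U := by
        apply Subset.antisymm hMU
        rw [← sdiff_eq_empty_iff_subset, ← hRdef, hRe]
      obtain ⟨T, hT, h⟩ := hsep a (hUdef ▸ hMU haM) b (hUdef ▸ hMU hbM) hab
      exact h (htw T hT (hMU' ▸ hTU T hT))
    · have h3 := hn3 hRne
      obtain ⟨n, hn⟩ : ∃ n, n = R.card := ⟨_, rfl⟩
      rw [← hn] at h3 hbig hd
      obtain ⟨q, hqd⟩ : ∃ q : ℤ, q = 2 ^ M.card := ⟨_, rfl⟩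
      have hd' : q * 2 ^ n ≤ 6 * (A.card : ℤ) := by rw [hqd]; exact_mod_cast hd
      have hF2' : 2 * (F : ℤ) ≤ q := by rw [hqd]; exact_mod_cast hF2
      rw [← hqd] at hbig hq
      have h5 : n = 3 ∨ n = 4 ∨ 5 ≤ n := by omega
      rcases h5 with h5 | h5 | h5
      · subst h5
        norm_num [ls, qq, aa] at hbig hd'
        linarith
      · subst h5
        norm_num [ls, qq, aa] at hbig hd'
        linarith
      · have h6 : 3 * (ls n : ℤ) + 13 ≤ 2 * 2 ^ n := by exact_mod_cast ls_le h5
        have h7 : (4 + (n : ℤ)) * (2 * (F : ℤ)) ≤ (4 + (n : ℤ)) * q :=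
          mul_le_mul_of_nonneg_left hF2' (by positivity)
        have h8 : q * (3 * (ls n : ℤ) + 13) ≤ q * (2 * 2 ^ n) := mul_le_mul_of_nonneg_left h6 hq.le
        have h9 : 0 ≤ q * (n : ℤ) := by positivity
        nlinarith

end Pool.Agent.H28.DF
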