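import Pool.Agent.H28.DF.Ch

/-!
# MP_75f39d_co, DenseFamilies: the final forms
-/

set_option autoImplicit false

namespace Pool.Agent.H28.DF

open Finset Pool.Agent.H78.UC

variable {α : Type*} [DecidableEq α]

theorem insert_unC {A : Finset (Finset α)} (hA : UnC A) : UnC (insert ∅ A) := by
  intro S hS T hT
  rw [mem_insert] at hS hT ⊢
  rcases hS with rfl | hS
  · rw [empty_union]; exact hT
  · rcases hT with rfl | hT
    · rw [union_empty]; exact Or.inr hS
    · exact Or.inr (hA S hS T hT)

theorem insert_sup (A : Finset (Finset α)) : (insert ∅ A).sup id = A.sup id := by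
  rw [Finset.sup_insert]
  simp

theorem insert_fr (A : Finset (Finset α)) (x : α) : fr (insert ∅ A) x = fr A x := by
  rw [fr, fr, filter_insert, if_neg (by simp)]

theorem weak0 {A : Finset (Finset α)} (hA : UnC A) (h0 : ∅ ∈ A) (hne : ∃ T ∈ A, T.Nonempty)
    (hd : 2 ^ (A.sup id).card ≤ 6 * A.card) : ∃ x ∈ A.sup id, A.card ≤ 2 * fr A x := by
  by_contra hcon
  have hlt : ∀ x ∈ A.sup id, 2 * fr A x < A.card := by
    intro x hx
    by_contra hlt
    exact hcon ⟨x, hx, by omega⟩
  have hnc : ∀ S ⊆ A.sup id, ¬ IsCore A S := by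
    intro S hS hc
    have h := core_sum hA hc
    have h2 : sg A S < 0 := by
      refine sum_neg (fun x hx => ?_) hc.1
      have := hlt x (hS hx)
      omega
    omega
  have hins : ins A (A.sup id) = A := by
    rw [ins]
    exact filter_true_of_mem fun T hT => Finset.le_sup (f := id) hT
  have hco := coreless h0 hA (Subset.refl A) (A.sup id) hnc
  rw [hins, if_pos h0] at hco
  obtain ⟨h1, -, h3⟩ := hco
  have hsg : sg A (A.sup id) ≤ -((A.sup id).card : ℤ) := by
    rw [sg]
    have : ∀ x ∈ A.sup id, (2 * (fr A x : ℤ) - (A.card : ℤ)) ≤ -1 := by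
      intro x hx
      have := hlt x hx
      omega
    refine (sum_le_sum this).trans ?_
    rw [sum_const, nsmul_eq_mul]
    linarith
  have hUA := top_mem hA h0
  have h2 : 2 ≤ A.card := by
    obtain ⟨T, hT, hTne⟩ := hne
    have : ({∅, T} : Finset (Finset α)) ⊆ A := by
      intro X hX
      rw [mem_insert, mem_singleton] at hX
      rcases hX with rfl | rfl
      · exact h0
      · exact hT
    have h := card_le_card this
    rwa [card_pair hTne.ne_empty.symm] at h
  have hn : 1 ≤ (A.sup id).card := by
    obtain ⟨T, hT, hTne⟩ := hne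
    exact card_pos.mpr (hTne.mono (Finset.le_sup (f := id) hT))
  obtain ⟨n, hnd⟩ : ∃ n, n = (A.sup id).card := ⟨_, rfl⟩
  obtain ⟨r, hrd⟩ : ∃ r, r = A.card := ⟨_, rfl⟩
  rw [← hnd, ← hrd] at h1 h3
  rw [← hnd] at hd hn hsg
  rw [← hrd] at hd h2
  have h5 : n = 1 ∨ n = 2 ∨ n = 3 ∨ n = 4 ∨ 5 ≤ n := by omega
  rcases h5 with rfl | rfl | rfl | rfl | h5
  · simp [aa, qq] at h1; omega
  · simp [aa, qq] at h1; omega
  · norm_num [ls, qq, aa] at h3 hsg; omega
  · norm_num [ls, qq, aa] at h3 hsg hd; omega
  · have h6 := ls_le h5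
    have h7 : (n : ℤ) * (1 - 1) = 0 := by ring
    omega

/-- A union-closed family with a nonempty member and at least one sixth of all subsets has a point in at least half of the members. -/
theorem dense_weak {A : Finset (Finset α)} (hA : UnC A) (hne : ∃ T ∈ A, T.Nonempty) (hd : 2 ^ (A.sup id).card ≤ 6 * A.card) :
    ∃ x ∈ A.sup id, A.card ≤ 2 * fr A x := by
  have h := weak0 (insert_unC hA) (mem_insert_self _ _)
    (by obtain ⟨T, hT, h⟩ := hne; exact ⟨T, mem_insert_of_mem hT, h⟩)
    (by rw [insert_sup]; exact hd.trans (Nat.mul_le_mul_left 6 (card_le_card (subset_insert _ _))))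
  rw [insert_sup] at h
  obtain ⟨x, hx, h⟩ := h
  rw [insert_fr] at h
  exact ⟨x, hx, le_trans (card_le_card (subset_insert _ _)) h⟩

/-- The strict form for separating families that are not power sets. -/
theorem dense_strict {A : Finset (Finset α)} (hA : UnC A) (hne : A.Nonempty)
    (hsep : ∀ x ∈ A.sup id, ∀ y ∈ A.sup id, x ≠ y → ∃ T ∈ A, ¬ (x ∈ T ↔ y ∈ T))
    (hpow : A ≠ (A.sup id).powerset) (hd : 2 ^ (A.sup id).card ≤ 6 * A.card) : ∃ x ∈ A.sup id, A.card < 2 * fr A x := by
  by_cases h0 : ∅ ∈ A
  · exact strict0 hA h0 hsep hpow hd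
  by_cases hp : insert ∅ A = (A.sup id).powerset
  · -- `A` is a power set without the empty set
    obtain ⟨T, hT⟩ := hne
    have hTne : T.Nonempty := by
      rw [nonempty_iff_ne_empty]
      rintro rfl
      exact h0 hT
    obtain ⟨x, hxT⟩ := hTne
    have hx : x ∈ A.sup id := (Finset.le_sup (f := id) hT) hxT
    refine ⟨x, hx, ?_⟩
    have h1 : fr A x = ((A.sup id).powerset.filter fun W => x ∈ W).card := by
      rw [← insert_fr, fr, hp]
    have h2 : ((A.sup id).powerset.filter fun W => x ∈ W).card = ((A.sup id).erase x).powerset.card := by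
      refine card_bij' (fun W _ => W.erase x) (fun W _ => insert x W) ?_ ?_ ?_ ?_
      · intro W hW
        rw [mem_filter, mem_powerset] at hW
        rw [mem_powerset]
        exact erase_subset_erase _ hW.1
      · intro W hW
        rw [mem_powerset] at hW
        rw [mem_filter, mem_powerset]
        exact ⟨insert_subset hx (hW.trans (erase_subset _ _)), mem_insert_self _ _⟩
      · intro W hW
        rw [mem_filter] at hW
        exact insert_erase hW.2
      · intro W hW
        rw [mem_powerset] at hW
        exact erase_insert fun h => notMem_erase x _ (hW h)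
    have h3 : A.card + 1 = 2 ^ (A.sup id).card := by
      rw [← card_powerset, ← hp, card_insert_of_notMem h0]
    have hpos : 0 < (A.sup id).card := card_pos.mpr ⟨x, hx⟩
    have h4 : 2 ^ (A.sup id).card = 2 * 2 ^ ((A.sup id).card - 1) := by
      rw [← pow_succ']
      congr 1
      omega
    rw [h1, h2, card_powerset, card_erase_of_mem hx]
    omega
  · have h := strict0 (insert_unC hA) (mem_insert_self _ _)
      (by
        rw [insert_sup]
        intro x hx y hy hxy
        obtain ⟨T, hT, h⟩ := hsep x hx y hy hxy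
        exact ⟨T, mem_insert_of_mem hT, h⟩)
      (by rw [insert_sup]; exact hp)
      (by rw [insert_sup]; exact hd.trans (Nat.mul_le_mul_left 6 (card_le_card (subset_insert _ _))))
    rw [insert_sup] at h
    obtain ⟨x, hx, h⟩ := h
    rw [insert_fr] at h
    exact ⟨x, hx, lt_of_le_of_lt (card_le_card (subset_insert _ _)) h⟩

end Pool.Agent.H28.DF
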