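import Pool.Agent.H78.UC.Gq
import Pool.Agent.H51.UC.Ib

/-!
# MP_75f39d_co, DenseFamilies: definitions

`A` is a family of finite sets. `fr A x` is the number of members that contain `x`, `sg A V` the sum over `x ∈ V`
of `2 * fr A x - |A|`, `ins A V` the family of the members inside `V`.
`Hs A V i` is the family of the `Y ⊆ V ∖ {i}` such that some member `T` has `i ∈ T ⊆ Y ∪ {i}`;
`V` is a core of `A` if `V` is not empty and for every `i ∈ V` at least one third of the subsets of `V ∖ {i}` are in `Hs A V i`.
-/

set_option autoImplicit false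

namespace Pool.Agent.H28.DF

open Finset

variable {α : Type*} [DecidableEq α]

/-- The number of members that contain `x`. -/
def fr (A : Finset (Finset α)) (x : α) : ℕ := (A.filter fun T => x ∈ T).card

/-- The sum over `V` of `2 * fr A x - |A|`. -/
def sg (A : Finset (Finset α)) (V : Finset α) : ℤ := ∑ x ∈ V, (2 * (fr A x : ℤ) - (A.card : ℤ))

/-- The members inside `V`. -/
def ins (A : Finset (Finset α)) (V : Finset α) : Finset (Finset α) := A.filter fun T => T ⊆ V

/-- The `T ∖ {i}` for the members `T` that contain `i`. -/
def lk (A : Finset (Finset α)) (i : α) : Finset (Finset α) := (A.filter fun T => i ∈ T).image fun T => T.erase i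

/-- The sets `Y ⊆ V ∖ {i}` such that some member `T` has `i ∈ T ⊆ Y ∪ {i}`. -/
def Hs (A : Finset (Finset α)) (V : Finset α) (i : α) : Finset (Finset α) :=
  (V.erase i).powerset.filter fun Y => ∃ T ∈ A, i ∈ T ∧ T ⊆ insert i Y

/-- `V` is a core of `A`. -/
def IsCore (A : Finset (Finset α)) (V : Finset α) : Prop :=
  V.Nonempty ∧ ∀ i ∈ V, 2 ^ (V.card - 1) ≤ 3 * (Hs A V i).card

/-- The largest number of members of an `Hs` that is not good, for a set of `n + 1` points. -/
def qq (n : ℕ) : ℕ := 2 ^ n / 3

/-- The largest number of members inside a set of `n` points without a core. -/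
def aa : ℕ → ℕ
  | 0 => 1
  | n + 1 => aa n + qq n

/-- The loss in the inequality for families without a core. -/
def ls : ℕ → ℕ
  | 0 => 0
  | n + 1 => ls n + qq n + aa n

end Pool.Agent.H28.DF
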