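import Pool.Agent.H28.DF.Ci
import Pool.Agent.H54.Dense.Small

/-!
# MP_75f39d_co, DenseFamilies: density one eighth
-/

set_option autoImplicit false

namespace Pool.Agent.H28.DF

open Finset Pool.Agent.H78.UC

variable {α : Type*} [DecidableEq α]

/-- `dec_sg` for a subset of `R`. -/
theorem dec_sg' {A : Finset (Finset α)} {M R S : Finset α} (hd : Disjoint M R) (hU : ∀ T ∈ A, T ⊆ M ∪ R) (hM : ∀ T ∈ A, T \ M ∈ A)
    (hS : S ⊆ R) : sg A S = ∑ W ∈ M.powerset, sg (rw A R W) S := by
  have h1 := dec_card hd hU hM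
  have h2 : ∀ x ∈ S, fr A x = ∑ W ∈ M.powerset, fr (rw A R W) x := by
    intro x hx
    have hxM : x ∉ M := fun h => (Finset.disjoint_left.mp hd h) (hS hx)
    rw [fr]
    have h := dec hd hU hM (fun T => x ∈ T)
    have h3 : (A.filter fun T => x ∈ T \ M) = A.filter fun T => x ∈ T := by
      refine filter_congr fun T _ => ?_
      rw [mem_sdiff]
      exact ⟨fun h => h.1, fun h => ⟨h, hxM⟩⟩
    rw [h3] at h
    rw [h]
    rfl
  unfold sg
  rw [sum_comm]
  refine sum_congr rfl fun x hx => ?_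
  rw [h2 x hx, h1, sum_sub_distrib, ← mul_sum]
  push_cast
  ring

/-- A small member is a core. -/
theorem small_core {A : Finset (Finset α)} {T : Finset α} (hT : T ∈ A) (hne : T.Nonempty) (h2 : T.card ≤ 2) : IsCore A T := by
  refine ⟨hne, fun i hi => ?_⟩
  have h1 : T.erase i ∈ Hs A T i := by
    rw [Hs, mem_filter, mem_powerset]
    exact ⟨Subset.refl _, T, hT, hi, by rw [insert_erase hi]⟩
  have h3 : 1 ≤ (Hs A T i).card := card_pos.mpr ⟨_, h1⟩
  have h4 : 2 ^ (T.card - 1) ≤ 2 ^ 1 := Nat.pow_le_pow_right (by norm_num) (by omega)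
  omega

theorem three_le {A : Finset (Finset α)} {R : Finset α} (hnc : ∀ S ⊆ R, ¬ IsCore A S) :
    ∀ T ∈ ins A R, T.Nonempty → 3 ≤ T.card := by
  intro T hT hne
  by_contra hlt
  rw [ins, mem_filter] at hT
  exact hnc T hT.2 (small_core hT.1 hne (by omega))

/-- Few points: no core, and the top is a member. -/
theorem three_le_card {A : Finset (Finset α)} {R : Finset α} (hRA : R ∈ A) (hnc : ∀ S ⊆ R, ¬ IsCore A S)
    (hne : R.Nonempty) : 3 ≤ R.card :=
  three_le hnc R (by rw [ins, mem_filter]; exact ⟨hRA, Subset.refl _⟩) hne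

/-- The sum over the traces. -/
theorem trace_sum {A : Finset (Finset α)} (hA : UnC A) (h0 : ∅ ∈ A) (hfr : ∀ x, 2 * fr A x ≤ A.card) {R : Finset α}
    (hd : Disjoint (sm A) R) (hU : ∀ T ∈ A, T ⊆ sm A ∪ R) (hRA : R ∈ A) (h5 : 5 ≤ R.card) :
    8 * A.card < 2 ^ ((sm A).card + R.card) := by
  have hM : ∀ T ∈ A, T \ sm A ∈ A := fun T hT => sdiff_sm hA hfr hT
  have hnc := no_core hA h0 hfr hd
  have h1 := dec_card hd hU hM
  have h7 : ((sm A).powerset.card : ℤ) = 2 ^ (sm A).card := by
    rw [card_powerset]; push_cast; rfl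
  have hq : (0 : ℤ) < 2 ^ (sm A).card := by positivity
  have hlow : ∀ W, (R.card = 5 → ((rw A R W).card : ℤ) - 2 ≤ sg (rw A R W) R) ∧
      (R.card = 6 → 2 * ((rw A R W).card : ℤ) - 12 ≤ sg (rw A R W) R) ∧
      (R.card = 7 → ((rw A R W).card : ℤ) - 12 ≤ sg (rw A R W) R) := by
    intro W
    refine Pool.Agent.H54.Dense.low567 hnc (three_le hnc) rw_sub ?_ ?_
    · intro T hT
      rw [rw, mem_filter] at hT
      exact hT.2.1
    · rintro ⟨T, hT⟩
      rw [rw, mem_filter] at hT
      rw [rw, mem_filter]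
      refine ⟨hRA, Subset.refl _, ?_⟩
      have := hA R hRA _ hT.2.2
      rwa [← union_assoc, union_eq_left.mpr hT.2.1] at this
  have hAz : (A.card : ℤ) = ∑ W ∈ (sm A).powerset, ((rw A R W).card : ℤ) := by rw [h1]; push_cast; rfl
  by_contra hlt
  rw [not_lt, pow_add] at hlt
  have hlt' : (2 : ℤ) ^ (sm A).card * 2 ^ R.card ≤ 8 * (A.card : ℤ) := by exact_mod_cast hlt
  have h3 := sg_nonpos hfr R
  rw [dec_sg hd hU hM] at h3
  have h8 : R.card = 5 ∨ R.card = 6 ∨ R.card = 7 ∨ 8 ≤ R.card := by omega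
  rcases h8 with h8 | h8 | h8 | h8
  · have h9 := sum_le_sum fun W (_ : W ∈ (sm A).powerset) => (hlow W).1 h8
    rw [sum_sub_distrib, sum_const, nsmul_eq_mul, h7, ← hAz] at h9
    rw [h8] at hlt'
    norm_num at hlt'
    linarith
  · have h9 := sum_le_sum fun W (_ : W ∈ (sm A).powerset) => (hlow W).2.1 h8
    rw [sum_sub_distrib, ← mul_sum, sum_const, nsmul_eq_mul, h7, ← hAz] at h9
    rw [h8] at hlt'
    norm_num at hlt'
    linarith
  · have h9 := sum_le_sum fun W (_ : W ∈ (sm A).powerset) => (hlow W).2.2 h8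
    rw [sum_sub_distrib, sum_const, nsmul_eq_mul, h7, ← hAz] at h9
    rw [h8] at hlt'
    norm_num at hlt'
    linarith
  · obtain ⟨n, hn⟩ : ∃ n, R.card = n + 3 := ⟨R.card - 3, by omega⟩
    have hn5 : 5 ≤ n := by omega
    obtain ⟨k, hk, hch⟩ := Pool.Agent.H54.Dense.chain8 h0 hnc hn
    have h3' := sg_nonpos hfr (R.erase k)
    rw [dec_sg' hd hU hM (erase_subset _ _)] at h3'
    have h4 : ∀ W ∈ (sm A).powerset, 6 * ((rw A R W).card : ℤ) - (12 + (Pool.Agent.H54.Dense.kk n : ℤ)) ≤
        3 * sg (rw A R W) (R.erase k) := by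
      intro W _
      have h := hch (rw A R W) (rw_unC hA) rw_sub
      rw [ins_rw] at h
      refine le_trans ?_ h
      by_cases hW : ∅ ∈ rw A R W
      · rw [if_pos hW]; linarith
      · rw [if_neg hW]
        have : (0 : ℤ) ≤ (n : ℤ) := by positivity
        linarith
    have h5' := sum_le_sum h4
    rw [← mul_sum, sum_sub_distrib, ← mul_sum, sum_const, nsmul_eq_mul, h7, ← hAz] at h5'
    have h6 : (Pool.Agent.H54.Dense.kk n : ℤ) + 12 < 6 * 2 ^ n := by exact_mod_cast Pool.Agent.H54.Dense.kk_lt hn5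
    rw [hn, pow_add] at hlt'
    norm_num at hlt'
    have h9 : (2 : ℤ) ^ (sm A).card * (12 + (Pool.Agent.H54.Dense.kk n : ℤ)) < 2 ^ (sm A).card * (6 * 2 ^ n) :=
      mul_lt_mul_of_pos_left (by linarith) hq
    linarith

theorem strict8_0 {A : Finset (Finset α)} (hA : UnC A) (h0 : ∅ ∈ A)
    (hsep : ∀ x ∈ A.sup id, ∀ y ∈ A.sup id, x ≠ y → ∃ T ∈ A, ¬ (x ∈ T ↔ y ∈ T))
    (hpow : A ≠ (A.sup id).powerset) (hd : 2 ^ (A.sup id).card ≤ 8 * A.card) :
    ∃ x ∈ A.sup id, A.card < 2 * fr A x := by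
  by_contra hcon
  have hfr : ∀ x, 2 * fr A x ≤ A.card := by
    intro x
    by_cases hx : x ∈ A.sup id
    · by_contra hlt
      exact hcon ⟨x, hx, by omega⟩
    · have : fr A x = 0 := by
        rw [fr, card_eq_zero, filter_eq_empty_iff]
        intro T hT hxT
        exact hx ((Finset.le_sup (f := id) hT) hxT)
      omega
  obtain ⟨M, hMdef⟩ : ∃ M, M = sm A := ⟨_, rfl⟩
  obtain ⟨U, hUdef⟩ : ∃ U, U = A.sup id := ⟨_, rfl⟩
  obtain ⟨R, hRdef⟩ : ∃ R, R = U \ M := ⟨_, rfl⟩
  have hMU : M ⊆ U := by rw [hMdef, hUdef]; exact sm_sub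
  have hTU : ∀ T ∈ A, T ⊆ U := fun T hT => by rw [hUdef]; exact Finset.le_sup (f := id) hT
  have hdis : Disjoint (sm A) R := by rw [hRdef, ← hMdef]; exact disjoint_sdiff
  have hMR : ∀ T ∈ A, T ⊆ sm A ∪ R := by
    intro T hT
    rw [hRdef, ← hMdef, union_sdiff_of_subset hMU]
    exact hTU T hT
  have hcard : U.card = M.card + R.card := by
    rw [hRdef, card_sdiff_of_subset hMU]
    have := card_le_card hMU
    omega
  have hUA : U ∈ A := by rw [hUdef]; exact top_mem hA h0
  have hRA : R ∈ A := by rw [hRdef, hMdef]; exact sdiff_sm hA hfr hUA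
  have hsd : ∀ T ∈ A, T \ M ∈ ins A R := by
    intro T hT
    rw [ins, mem_filter]
    refine ⟨by rw [hMdef]; exact sdiff_sm hA hfr hT, ?_⟩
    rw [hRdef]
    exact sdiff_subset_sdiff (hTU T hT) (Subset.refl _)
  have hnc := no_core hA h0 hfr hdis
  -- separation inside `R`
  have hsepR : ∀ x ∈ R, ∀ y ∈ R, x ≠ y → ∃ T ∈ ins A R, ¬ (x ∈ T ↔ y ∈ T) := by
    intro x hx y hy hxy
    have hxU : x ∈ U \ M := hRdef ▸ hx
    have hyU : y ∈ U \ M := hRdef ▸ hy
    rw [mem_sdiff] at hxU hyU
    obtain ⟨T, hT, h⟩ := hsep x (hUdef ▸ hxU.1) y (hUdef ▸ hyU.1) hxy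
    refine ⟨T \ M, hsd T hT, ?_⟩
    rw [mem_sdiff, mem_sdiff]
    simpa [hxU.2, hyU.2] using h
  rcases R.eq_empty_or_nonempty with hRe | hRne
  · have hMU' : M = U := by
      apply Subset.antisymm hMU
      rw [← sdiff_eq_empty_iff_subset, ← hRdef, hRe]
    by_cases hall : ∀ a ∈ M, {a} ∈ A
    · -- `A` is a power set
      apply hpow
      have hN : ∀ N : Finset α, N ⊆ M → N ∈ A := by
        intro N
        induction N using Finset.induction_on with
        | empty => intro _; exact h0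
        | insert a N ha ih =>
          intro h
          rw [insert_eq]
          exact hA _ (hall a (h (mem_insert_self _ _))) _ (ih fun x hx => h (mem_insert_of_mem hx))
      rw [← hUdef]
      ext T
      rw [mem_powerset]
      exact ⟨fun h => hTU T h, fun h => hN T (hMU' ▸ h)⟩
    · push Not at hall
      obtain ⟨a, haM, haA⟩ := hall
      have hpair : ∃ b, a ≠ b ∧ ({a, b} : Finset α) ∈ A := by
        have haM' := haM
        rw [hMdef, sm, Finset.mem_sup] at haM'
        obtain ⟨T, hT, haT⟩ := haM'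
        rw [mem_filter] at hT
        rw [id] at haT
        have hc1 : T.card ≠ 1 := by
          intro h1
          rw [card_eq_one] at h1
          obtain ⟨c, hc⟩ := h1
          rw [hc, mem_singleton] at haT
          subst haT
          exact haA (hc ▸ hT.1)
        have hc0 : T.card ≠ 0 := by
          rw [Ne, card_eq_zero]
          rintro rfl
          simp at haT
        have hc2 : T.card = 2 := by omega
        rw [card_eq_two] at hc2
        obtain ⟨c, d, hcd, hTcd⟩ := hc2
        rw [hTcd, mem_insert, mem_singleton] at haT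
        rcases haT with rfl | rfl
        · exact ⟨d, hcd, hTcd ▸ hT.1⟩
        · refine ⟨c, hcd.symm, ?_⟩
          rw [pair_comm]
          exact hTcd ▸ hT.1
      obtain ⟨b, hab, habA⟩ := hpair
      have hbM : b ∈ M := by
        rw [hMdef, sm, Finset.mem_sup]
        exact ⟨{a, b}, by rw [mem_filter]; exact ⟨habA, card_le_two⟩, by simp⟩
      obtain ⟨T, hT, h⟩ := hsep a (hUdef ▸ hMU haM) b (hUdef ▸ hMU hbM) hab
      exact h (twins hA hfr hab habA haA hT (hMdef ▸ hMU' ▸ hTU T hT))
  · have h3 := three_le_card hRA hnc hRne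
    by_cases h5 : 5 ≤ R.card
    · have h := trace_sum hA h0 hfr hdis hMR hRA h5
      rw [← hMdef, ← hcard, hUdef] at h
      omega
    · obtain ⟨x, hx, y, hy, hxy, h⟩ := Pool.Agent.H54.Dense.twins4 hnc (three_le hnc) (by omega)
      obtain ⟨T, hT, h'⟩ := hsepR x hx y hy hxy
      exact h' (h T hT)

theorem weak8_0 {A : Finset (Finset α)} (hA : UnC A) (h0 : ∅ ∈ A) (hne : ∃ T ∈ A, T.Nonempty)
    (hd : 2 ^ (A.sup id).card ≤ 8 * A.card) : ∃ x ∈ A.sup id, A.card ≤ 2 * fr A x := by
  by_contra hcon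
  have hlt : ∀ x ∈ A.sup id, 2 * fr A x < A.card := by
    intro x hx
    by_contra hlt
    exact hcon ⟨x, hx, by omega⟩
  obtain ⟨U, hUdef⟩ : ∃ U, U = A.sup id := ⟨_, rfl⟩
  rw [← hUdef] at hlt hd
  have hTU : ∀ T ∈ A, T ⊆ U := fun T hT => by rw [hUdef]; exact Finset.le_sup (f := id) hT
  have hneg : ∀ S ⊆ U, S.Nonempty → sg A S < 0 := by
    intro S hS hSne
    refine sum_neg (fun x hx => ?_) hSne
    have := hlt x (hS hx)
    omega
  have hnc : ∀ S ⊆ U, ¬ IsCore A S := by
    intro S hS hc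
    have h := core_sum hA hc
    have h2 := hneg S hS hc.1
    omega
  have hins : ins A U = A := by
    rw [ins]
    exact filter_true_of_mem fun T hT => hTU T hT
  have hUA : U ∈ A := by rw [hUdef]; exact top_mem hA h0
  have hUne : U.Nonempty := by
    obtain ⟨T, hT, hTne⟩ := hne
    exact hTne.mono (hTU T hT)
  have h3 := three_le_card hUA hnc hUne
  have h3A : ∀ T ∈ A, T.Nonempty → 3 ≤ T.card := by
    intro T hT
    exact three_le hnc T (hins.symm ▸ hT)
  have hsg := hneg U (Subset.refl _) hUne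
  have h8 : (U.card = 3 ∨ U.card = 4) ∨ U.card = 5 ∨ U.card = 6 ∨ U.card = 7 ∨ 8 ≤ U.card := by omega
  have hlow := Pool.Agent.H54.Dense.low567 hnc (three_le hnc) (Subset.refl A) hTU (fun _ => hUA)
  rcases h8 with h8 | h8 | h8 | h8 | h8
  · -- few points
    rw [Pool.Agent.H54.Dense.sg_sum hTU] at hsg
    have h00 : (∅ : Finset α) ≠ U := hUne.ne_empty.symm
    have h1 : ∀ T ∈ A, (if T = ∅ then -(U.card : ℤ) else 0) + (if T = U then (U.card : ℤ) else 0) ≤
        2 * (T.card : ℤ) - (U.card : ℤ) := by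
      intro T hT
      rcases T.eq_empty_or_nonempty with hT0 | hT0
      · rw [hT0, if_pos rfl, if_neg h00]
        simp
      · have h4 := h3A T hT hT0
        rw [if_neg hT0.ne_empty]
        by_cases h5 : T = U
        · rw [if_pos h5, h5]; linarith
        · rw [if_neg h5]
          omega
    have h2 := sum_le_sum h1
    rw [sum_add_distrib, sum_ite_eq', sum_ite_eq', if_pos h0, if_pos hUA] at h2
    linarith
  · have h9 := hlow.1 h8
    rw [h8] at hd
    norm_num at hd
    omega
  · have h9 := hlow.2.1 h8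
    rw [h8] at hd
    norm_num at hd
    omega
  · have h9 := hlow.2.2 h8
    rw [h8] at hd
    norm_num at hd
    omega
  · obtain ⟨n, hn⟩ : ∃ n, U.card = n + 3 := ⟨U.card - 3, by omega⟩
    have hn5 : 5 ≤ n := by omega
    obtain ⟨k, hk, hch⟩ := Pool.Agent.H54.Dense.chain8 h0 hnc hn
    have h := hch A hA (Subset.refl _)
    rw [hins, if_pos h0] at h
    have hne' : (U.erase k).Nonempty := by
      rw [← card_pos, card_erase_of_mem hk]
      omega
    have h2 := hneg _ (erase_subset k U) hne'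
    have h6 := Pool.Agent.H54.Dense.kk_lt hn5
    rw [hn, pow_add] at hd
    norm_num at hd
    have h7 : (n : ℤ) * (1 - 1) = 0 := by ring
    omega

/-- A union-closed family with a nonempty member and at least one eighth of all subsets has a point in at least half of the members. -/
theorem dense8_weak {A : Finset (Finset α)} (hA : UnC A) (hne : ∃ T ∈ A, T.Nonempty) (hd : 2 ^ (A.sup id).card ≤ 8 * A.card) :
    ∃ x ∈ A.sup id, A.card ≤ 2 * fr A x := by
  have h := weak8_0 (insert_unC hA) (mem_insert_self _ _)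
    (by obtain ⟨T, hT, h⟩ := hne; exact ⟨T, mem_insert_of_mem hT, h⟩)
    (by rw [insert_sup]; exact hd.trans (Nat.mul_le_mul_left 8 (card_le_card (subset_insert _ _))))
  rw [insert_sup] at h
  obtain ⟨x, hx, h⟩ := h
  rw [insert_fr] at h
  exact ⟨x, hx, le_trans (card_le_card (subset_insert _ _)) h⟩

/-- A power set without the empty set. -/
theorem power_erase {A : Finset (Finset α)} (hne : A.Nonempty) (h0 : ∅ ∉ A) (hp : insert ∅ A = (A.sup id).powerset) :
    ∃ x ∈ A.sup id, A.card < 2 * fr A x := by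
  obtain ⟨T, hT⟩ := hne
  have hTne : T.Nonempty := by
    rw [nonempty_iff_ne_empty]
    rintro rfl
    exact h0 hT
  obtain ⟨x, hxT⟩ := hTne
  have hx : x ∈ A.sup id := (Finset.le_sup (f := id) hT) hxT
  refine ⟨x, hx, ?_⟩
  have h1 : fr A x = ((A.sup id).powerset.filter fun W => x ∈ W).card := by
    rw [← insert_fr, fr, hp]
  have h2 : ((A.sup id).powerset.filter fun W => x ∈ W).card = ((A.sup id).erase x).powerset.card := by
    refine card_bij' (fun W _ => W.erase x) (fun W _ => insert x W) ?_ ?_ ?_ ?_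
    · intro W hW
      rw [mem_filter, mem_powerset] at hW
      rw [mem_powerset]
      exact erase_subset_erase _ hW.1
    · intro W hW
      rw [mem_powerset] at hW
      rw [mem_filter, mem_powerset]
      exact ⟨insert_subset hx (hW.trans (erase_subset _ _)), mem_insert_self _ _⟩
    · intro W hW
      rw [mem_filter] at hW
      exact insert_erase hW.2
    · intro W hW
      rw [mem_powerset] at hW
      exact erase_insert fun h => notMem_erase x _ (hW h)
  have h3 : A.card + 1 = 2 ^ (A.sup id).card := by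
    rw [← card_powerset, ← hp, card_insert_of_notMem h0]
  have hpos : 0 < (A.sup id).card := card_pos.mpr ⟨x, hx⟩
  have h4 : 2 ^ (A.sup id).card = 2 * 2 ^ ((A.sup id).card - 1) := by
    rw [← pow_succ']
    congr 1
    omega
  rw [h1, h2, card_powerset, card_erase_of_mem hx]
  omega

/-- The strict form for separating families that are not power sets. -/
theorem dense8_strict {A : Finset (Finset α)} (hA : UnC A) (hne : A.Nonempty)
    (hsep : ∀ x ∈ A.sup id, ∀ y ∈ A.sup id, x ≠ y → ∃ T ∈ A, ¬ (x ∈ T ↔ y ∈ T))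
    (hpow : A ≠ (A.sup id).powerset) (hd : 2 ^ (A.sup id).card ≤ 8 * A.card) : ∃ x ∈ A.sup id, A.card < 2 * fr A x := by
  by_cases h0 : ∅ ∈ A
  · exact strict8_0 hA h0 hsep hpow hd
  by_cases hp : insert ∅ A = (A.sup id).powerset
  · exact power_erase hne h0 hp
  · have h := strict8_0 (insert_unC hA) (mem_insert_self _ _)
      (by
        rw [insert_sup]
        intro x hx y hy hxy
        obtain ⟨T, hT, h⟩ := hsep x hx y hy hxy
        exact ⟨T, mem_insert_of_mem hT, h⟩)
      (by rw [insert_sup]; exact hp)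
      (by rw [insert_sup]; exact hd.trans (Nat.mul_le_mul_left 8 (card_le_card (subset_insert _ _))))
    rw [insert_sup] at h
    obtain ⟨x, hx, h⟩ := h
    rw [insert_fr] at h
    exact ⟨x, hx, lt_of_le_of_lt (card_le_card (subset_insert _ _)) h⟩

end Pool.Agent.H28.DF
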