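import Pool.Agent.H51.UC.Gd

/-!
# MP_75f39d_co, DenseFamilies: density on a set of points that determines the members

`trace_power` is the lemma of the same name in `Pool/Agent/H25/Trace.lean` (helper25), copied to keep the imports small.
-/

set_option autoImplicit false

namespace Pool.Agent.H28.DF

open Finset Pool.Agent.H78.UC

variable {α : Type*} [DecidableEq α]

/-- The case in which the trace is a power set. -/
theorem trace_power (A : Finset (Finset α))
    (huc : ∀ S ∈ A, ∀ T ∈ A, S ∪ T ∈ A)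
    (hsep : ∀ x ∈ A.sup id, ∀ y ∈ A.sup id, x ≠ y →
      ∃ S ∈ A, (x ∈ S ∧ y ∉ S) ∨ (y ∈ S ∧ x ∉ S))
    (X : Finset α) (hXU : X ⊆ A.sup id)
    (hX : ∀ S ∈ A, ∀ T ∈ A, S ∩ X = T ∩ X → S = T)
    (hfull : ∀ Z ⊆ X, ∃ S ∈ A, S ∩ X = Z)
    {y : α} (hy : y ∈ A.sup id) (hyX : y ∉ X) :
    A.card < 2 * (A.filter (fun S => y ∈ S)).card := by
  classical
  -- the member with a given trace
  choose! m hmA hmX using hfull
  have hmu : ∀ S ∈ A, m (S ∩ X) = S := fun S hS =>
    hX _ (hmA _ inter_subset_right) _ hS (hmX _ inter_subset_right)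
  have hsplit : A.card = (A.filter (fun S => y ∈ S)).card + (A.filter (fun S => ¬ y ∈ S)).card :=
    (card_filter_add_card_filter_not _).symm
  -- members are unions of the members with one point traces
  have hunion : ∀ Z W : Finset α, Z ⊆ X → W ⊆ X → m (Z ∪ W) = m Z ∪ m W := by
    intro Z W hZ hW
    apply hX _ (hmA _ (union_subset hZ hW)) _ (huc _ (hmA _ hZ) _ (hmA _ hW))
    rw [hmX _ (union_subset hZ hW), union_inter_distrib_right, hmX _ hZ, hmX _ hW]
  by_cases hy0 : y ∈ m ∅
  · -- the point lies in all members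
    have hall : A.filter (fun S => ¬ y ∈ S) = ∅ := by
      rw [filter_eq_empty_iff]
      intro S hS hyS
      apply hyS
      have h1 := hunion ∅ (S ∩ X) (empty_subset _) inter_subset_right
      rw [empty_union, hmu S hS] at h1
      rw [h1]
      exact mem_union_left _ hy0
    rw [hall, card_empty] at hsplit
    have hpos : 0 < A.card := card_pos.mpr ⟨m ∅, hmA _ (empty_subset _)⟩
    omega
  -- the one point traces whose members contain `y`
  have hchar : ∀ Z : Finset α, Z ⊆ X → (y ∈ m Z ↔ ∃ x ∈ Z, y ∈ m {x}) := by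
    intro Z
    induction Z using Finset.induction_on with
    | empty =>
      intro _
      simp [hy0]
    | insert a Z _ ih =>
      intro hZ
      have ha : a ∈ X := hZ (mem_insert_self a Z)
      have hZX : Z ⊆ X := fun z hz => hZ (mem_insert_of_mem hz)
      rw [insert_eq, hunion {a} Z (singleton_subset_iff.mpr ha) hZX, mem_union, ih hZX]
      constructor
      · rintro (h | ⟨x, hx, h⟩)
        · exact ⟨a, by simp, h⟩
        · exact ⟨x, by simp [hx], h⟩
      · rintro ⟨x, hx, h⟩
        rw [mem_union, mem_singleton] at hx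
        rcases hx with rfl | hx
        · exact Or.inl h
        · exact Or.inr ⟨x, hx, h⟩
  -- some one point trace
  obtain ⟨S0, hS0, hyS0⟩ := (mem_sup).mp hy
  have hyS0' : y ∈ S0 := hyS0
  have h1 : y ∈ m (S0 ∩ X) := by rw [hmu S0 hS0]; exact hyS0'
  obtain ⟨x, hx, hyx⟩ := (hchar _ inter_subset_right).mp h1
  have hxX : x ∈ X := (mem_inter.mp hx).2
  have hxy : x ≠ y := fun e => hyX (e ▸ hxX)
  -- a second one
  have h2 : ∃ z ∈ X, z ≠ x ∧ y ∈ m {z} := by
    by_contra hcon
    push Not at hcon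
    obtain ⟨S, hS, h⟩ := hsep x (hXU hxX) y hy hxy
    have hyS : y ∈ S ↔ x ∈ S := by
      rw [← hmu S hS, hchar _ inter_subset_right]
      constructor
      · rintro ⟨z, hz, hyz⟩
        by_cases hzx : z = x
        · subst hzx
          rw [hmu S hS]
          exact (mem_inter.mp hz).1
        · exact absurd hyz (hcon z (mem_inter.mp hz).2 hzx)
      · intro hxS
        rw [hmu S hS] at hxS
        exact ⟨x, mem_inter.mpr ⟨hxS, hxX⟩, hyx⟩
    rcases h with ⟨h3, h4⟩ | ⟨h3, h4⟩
    · exact h4 (hyS.mpr h3)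
    · exact h4 (hyS.mp h3)
  obtain ⟨z, hzX, hzx, hyz⟩ := h2
  -- members without `y` have traces avoiding both
  have hle : (A.filter (fun S => ¬ y ∈ S)).card ≤ ((X.erase x).erase z).powerset.card := by
    apply card_le_card_of_injOn (fun S => S ∩ X)
    · intro S hS
      simp only [coe_filter, Set.mem_ofPred_eq] at hS
      rw [mem_coe, mem_powerset]
      intro w hw
      rw [mem_inter] at hw
      rw [mem_erase, mem_erase]
      refine ⟨?_, ?_, hw.2⟩
      · rintro rfl
        apply hS.2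
        rw [← hmu S hS.1, hchar _ inter_subset_right]
        exact ⟨w, mem_inter.mpr hw, hyz⟩
      · rintro rfl
        apply hS.2
        rw [← hmu S hS.1, hchar _ inter_subset_right]
        exact ⟨w, mem_inter.mpr hw, hyx⟩
    · intro S hS S' hS' he
      simp only [coe_filter, Set.mem_ofPred_eq] at hS hS'
      exact hX S hS.1 S' hS'.1 he
  have hcardX : A.card = 2 ^ X.card := by
    rw [← card_powerset]
    apply card_nbij' (fun S => S ∩ X) m
    · intro S _
      exact mem_powerset.mpr inter_subset_right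
    · intro Z hZ
      exact hmA _ (mem_powerset.mp hZ)
    · intro S hS
      exact hmu S hS
    · intro Z hZ
      exact hmX _ (mem_powerset.mp hZ)
  have hzX' : z ∈ X.erase x := mem_erase.mpr ⟨hzx, hzX⟩
  rw [card_powerset, card_erase_of_mem hzX', card_erase_of_mem hxX] at hle
  have hX2 : 2 ≤ X.card := by
    have : ({x, z} : Finset α) ⊆ X := by
      intro w hw
      rw [mem_insert, mem_singleton] at hw
      rcases hw with rfl | rfl
      · exact hxX
      · exact hzX
    have h5 := card_le_card this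
    rwa [card_pair (fun e => hzx e.symm)] at h5
  obtain ⟨c, hc⟩ : ∃ c, X.card = c + 2 := ⟨X.card - 2, by omega⟩
  rw [hc] at hle hcardX
  have h6 : c + 2 - 1 - 1 = c := by omega
  rw [h6] at hle
  have h7 : 2 ^ (c + 2) = 4 * 2 ^ c := by ring
  have h8 : 0 < 2 ^ c := by positivity
  omega

/-- The traces of the members on a set of points of the universe that determines them. -/
theorem trace_facts {A : Finset (Finset α)} (hA : UnC A) {Y : Finset α} (hYU : Y ⊆ A.sup id)
    (hY : ∀ S ∈ A, ∀ T ∈ A, S ∩ Y = T ∩ Y → S = T) :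
    UnC (A.image fun S => S ∩ Y) ∧ (A.image fun S => S ∩ Y).card = A.card ∧ (A.image fun S => S ∩ Y).sup id = Y ∧
      ∀ x ∈ Y, fr (A.image fun S => S ∩ Y) x = fr A x := by
  have hinj : Set.InjOn (fun S : Finset α => S ∩ Y) (A : Set (Finset α)) :=
    fun S hS T hT h => hY S hS T hT h
  refine ⟨?_, card_image_of_injOn hinj, ?_, ?_⟩
  · intro Z hZ W hW
    rw [mem_image] at hZ hW
    obtain ⟨S, hS, rfl⟩ := hZ
    obtain ⟨T, hT, rfl⟩ := hW
    rw [← union_inter_distrib_right]
    exact mem_image_of_mem _ (hA S hS T hT)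
  · apply Subset.antisymm
    · intro w hw
      rw [mem_sup] at hw
      obtain ⟨Z, hZ, hwZ⟩ := hw
      rw [mem_image] at hZ
      obtain ⟨S, _, rfl⟩ := hZ
      exact (mem_inter.mp hwZ).2
    · intro w hw
      obtain ⟨S, hS, hwS⟩ := mem_sup.mp (hYU hw)
      rw [mem_sup]
      exact ⟨S ∩ Y, mem_image_of_mem _ hS, mem_inter.mpr ⟨hwS, hw⟩⟩
  · intro x hx
    have e : (A.image fun S => S ∩ Y).filter (fun S => x ∈ S) = (A.filter (fun S => x ∈ S)).image (fun S => S ∩ Y) := by
      ext Z
      simp only [mem_filter, mem_image]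
      constructor
      · rintro ⟨⟨S, hS, rfl⟩, hxS⟩
        exact ⟨S, ⟨hS, (mem_inter.mp hxS).1⟩, rfl⟩
      · rintro ⟨S, ⟨hS, hxS⟩, rfl⟩
        exact ⟨⟨S, hS, rfl⟩, mem_inter.mpr ⟨hxS, hx⟩⟩
    rw [fr, e, fr]
    apply card_image_of_injOn
    exact hinj.mono (by
      intro S hS
      exact (mem_filter.mp (mem_coe.mp hS)).1)

/-- Restriction of a determining set to the universe. -/
theorem restrict_det {A : Finset (Finset α)} {X : Finset α} (hX : ∀ S ∈ A, ∀ T ∈ A, S ∩ X = T ∩ X → S = T) :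
    ∀ S ∈ A, ∀ T ∈ A, S ∩ (X ∩ A.sup id) = T ∩ (X ∩ A.sup id) → S = T := by
  have htr : ∀ S ∈ A, S ∩ (X ∩ A.sup id) = S ∩ X := by
    intro S hS
    have hSU : S ⊆ A.sup id := le_sup (f := id) hS
    ext w
    simp only [mem_inter]
    constructor
    · rintro ⟨h1, h2, _⟩
      exact ⟨h1, h2⟩
    · rintro ⟨h1, h2⟩
      exact ⟨h1, h2, hSU h1⟩
  intro S hS T hT h
  apply hX S hS T hT
  rw [← htr S hS, ← htr T hT, h]

theorem trace_weak {A : Finset (Finset α)} (hA : UnC A) (hne : ∃ T ∈ A, T.Nonempty) (X : Finset α)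
    (hX : ∀ S ∈ A, ∀ T ∈ A, S ∩ X = T ∩ X → S = T) (hd : 5 * 2 ^ X.card ≤ 48 * A.card) :
    ∃ x ∈ A.sup id, A.card ≤ 2 * fr A x := by
  obtain ⟨Y, hYdef⟩ : ∃ Y, Y = X ∩ A.sup id := ⟨_, rfl⟩
  have hYU : Y ⊆ A.sup id := by rw [hYdef]; exact inter_subset_right
  have hY := restrict_det hX
  rw [← hYdef] at hY
  have hdY : 5 * 2 ^ Y.card ≤ 48 * A.card := by
    have h1 : Y.card ≤ X.card := by rw [hYdef]; exact card_le_card inter_subset_left
    have : 2 ^ Y.card ≤ 2 ^ X.card := Nat.pow_le_pow_right (by norm_num) h1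
    omega
  obtain ⟨h1, h2, h3, h4⟩ := trace_facts hA hYU hY
  by_cases hB : ∃ T ∈ A.image (fun S => S ∩ Y), T.Nonempty
  · obtain ⟨x, hx, h⟩ := Pool.Agent.H51.UC.dense9_weak h1 hB (by rw [h3, h2]; exact hdY)
    rw [h3] at hx
    rw [h2, h4 x hx] at h
    exact ⟨x, hYU hx, h⟩
  · -- one member only
    obtain ⟨T, hT, x, hx⟩ := hne
    have hall : ∀ S ∈ A, S = T := by
      intro S hS
      apply hY S hS T hT
      have e : ∀ S ∈ A, S ∩ Y = ∅ := by
        intro S hS
        by_contra hne
        exact hB ⟨S ∩ Y, mem_image_of_mem _ hS, nonempty_iff_ne_empty.mpr hne⟩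
      rw [e S hS, e T hT]
    refine ⟨x, (le_sup (f := id) hT) hx, ?_⟩
    have e2 : fr A x = A.card := by
      rw [fr]
      congr 1
      exact filter_true_of_mem fun S hS => by rw [hall S hS]; exact hx
    omega

theorem trace_strict {A : Finset (Finset α)} (hA : UnC A) (hne : A.Nonempty)
    (hsep : ∀ x ∈ A.sup id, ∀ y ∈ A.sup id, x ≠ y → ∃ T ∈ A, ¬ (x ∈ T ↔ y ∈ T))
    (hpow : A ≠ (A.sup id).powerset) (X : Finset α)
    (hX : ∀ S ∈ A, ∀ T ∈ A, S ∩ X = T ∩ X → S = T) (hd : 5 * 2 ^ X.card ≤ 48 * A.card) :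
    ∃ x ∈ A.sup id, A.card < 2 * fr A x := by
  obtain ⟨Y, hYdef⟩ : ∃ Y, Y = X ∩ A.sup id := ⟨_, rfl⟩
  have hYU : Y ⊆ A.sup id := by rw [hYdef]; exact inter_subset_right
  have hY := restrict_det hX
  rw [← hYdef] at hY
  have hdY : 5 * 2 ^ Y.card ≤ 48 * A.card := by
    have h1 : Y.card ≤ X.card := by rw [hYdef]; exact card_le_card inter_subset_left
    have : 2 ^ Y.card ≤ 2 ^ X.card := Nat.pow_le_pow_right (by norm_num) h1
    omega
  obtain ⟨h1, h2, h3, h4⟩ := trace_facts hA hYU hY
  by_cases hB : A.image (fun S => S ∩ Y) = Y.powerset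
  · by_cases hYe : Y = A.sup id
    · exfalso
      apply hpow
      have h5 : A.image (fun S => S ∩ Y) = A := by
        have : ∀ S ∈ A, S ∩ Y = S := by
          intro S hS
          rw [hYe]
          exact inter_eq_left.mpr (le_sup (f := id) hS)
        ext S
        rw [mem_image]
        constructor
        · rintro ⟨T, hT, rfl⟩
          rw [this T hT]
          exact hT
        · intro hS
          exact ⟨S, hS, this S hS⟩
      rw [h5] at hB
      rw [← hYe]
      exact hB
    · obtain ⟨y, hy, hyY⟩ : ∃ y ∈ A.sup id, y ∉ Y := by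
        by_contra h
        push Not at h
        exact hYe (Subset.antisymm hYU h)
      refine ⟨y, hy, trace_power A hA ?_ Y hYU hY ?_ hy hyY⟩
      · intro a ha b hb hab
        obtain ⟨S, hS, h⟩ := hsep a ha b hb hab
        refine ⟨S, hS, ?_⟩
        by_cases haS : a ∈ S
        · exact Or.inl ⟨haS, fun hbS => h ⟨fun _ => hbS, fun _ => haS⟩⟩
        · refine Or.inr ⟨?_, haS⟩
          by_contra hbS
          exact h ⟨fun h' => absurd h' haS, fun h' => absurd h' hbS⟩
      · intro Z hZ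
        have : Z ∈ A.image (fun S => S ∩ Y) := by rw [hB]; exact mem_powerset.mpr hZ
        rw [mem_image] at this
        exact this
  · obtain ⟨x, hx, h⟩ := Pool.Agent.H51.UC.dense9_strict h1 (hne.image _)
      (by
        rw [h3]
        intro a ha b hb hab
        obtain ⟨S, hS, h⟩ := hsep a (hYU ha) b (hYU hb) hab
        refine ⟨S ∩ Y, mem_image_of_mem _ hS, ?_⟩
        rw [mem_inter, mem_inter]
        simpa [ha, hb] using h)
      (by rw [h3]; exact hB) (by rw [h3, h2]; exact hdY)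
    rw [h3] at hx
    rw [h2, h4 x hx] at h
    exact ⟨x, hYU hx, h⟩

end Pool.Agent.H28.DF
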